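import Mathlib
import Pool.Agent.TH888.B1.Sieg

/-!
Factors of small degree of `X ^ z - F` for `z` without small prime factors, and the polynomial
Fermat-Catalan theorem.
-/

set_option autoImplicit false

namespace Pool.Agent.N741.PB

open Finset Polynomial

/-- the constant term of a factor of `X ^ z - a` -/
theorem factor_power {K : Type*} [Field K] {a : K} {z : ℕ} (hz : 1 ≤ z) (Q : K[X])
    (hQ : Q ∣ X ^ z - C a) : ∃ e : K, e ^ z = a ^ Q.natDegree := by
  have h0 : (X ^ z - C a : K[X]) ≠ 0 := X_pow_sub_C_ne_zero (by omega) a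
  have hQ0 : Q ≠ 0 := ne_zero_of_dvd_ne_zero h0 hQ
  set i := algebraMap K (AlgebraicClosure K) with hi
  have hsp : (Q.map i).Splits := IsAlgClosed.splits _
  have h1 := hsp.coeff_zero_eq_leadingCoeff_mul_prod_roots
  have h2 := hsp.natDegree_eq_card_roots
  have hroots : ∀ y ∈ (Q.map i).roots, y ^ z = i a := by
    intro y hy
    have hy' : (Q.map i).IsRoot y := isRoot_of_mem_roots hy
    have h3 : (Q.map i) ∣ X ^ z - C (i a) := by
      have := Polynomial.map_dvd i hQ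
      simpa using this
    have h4 := hy'.dvd h3
    rw [IsRoot.def, eval_sub, eval_pow, eval_X, eval_C] at h4
    exact sub_eq_zero.mp h4
  have hprod : (Q.map i).roots.prod ^ z = i a ^ Q.natDegree := by
    have e1 : (Q.map i).roots.prod ^ z = ((Q.map i).roots.map (fun y => y ^ z)).prod := by
      rw [Multiset.prod_map_pow, Multiset.map_id']
    rw [e1, Multiset.map_congr rfl hroots, Multiset.map_const',
      Multiset.prod_replicate, ← h2, natDegree_map]
  refine ⟨(-1) ^ Q.natDegree * (Q.coeff 0 / Q.leadingCoeff), ?_⟩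
  apply (algebraMap K (AlgebraicClosure K)).injective
  rw [← hi, map_pow, map_pow, ← hprod]
  congr 1
  rw [map_mul, map_pow, map_neg, map_one, map_div₀]
  rw [coeff_map, leadingCoeff_map, natDegree_map] at h1
  rw [h1]
  have h3 : i Q.leadingCoeff ≠ 0 := by
    rw [_root_.map_ne_zero]; exact leadingCoeff_ne_zero.mpr hQ0
  have h4 : ((-1 : AlgebraicClosure K) ^ Q.natDegree) * (-1) ^ Q.natDegree = 1 := by
    rw [← mul_pow]; simp
  have h5 : (-1 : AlgebraicClosure K) ^ Q.natDegree *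
      ((-1) ^ Q.natDegree * i Q.leadingCoeff * (Q.map i).roots.prod / i Q.leadingCoeff) =
      ((-1 : AlgebraicClosure K) ^ Q.natDegree * (-1) ^ Q.natDegree) * (Q.map i).roots.prod := by
    field_simp
  rw [h5, h4, one_mul]

theorem coprime_of_lt {z d R : ℕ} (hz : ∀ p : ℕ, p.Prime → p ∣ z → R ≤ p) (hd : 1 ≤ d) (hdR : d < R) :
    Nat.Coprime d z := by
  apply Nat.Coprime.symm
  apply Nat.coprime_of_dvd
  intro p hp hpz hpd
  have h1 := hz p hp hpz
  have h2 := Nat.le_of_dvd hd hpd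
  omega

/-- a power with coprime exponent which is a `z`-th power -/
theorem power_of_coprime {K : Type*} [Field K] {a e : K} {z d : ℕ} (hd : 1 ≤ d) (hz : 1 ≤ z)
    (hco : Nat.Coprime d z) (he : e ^ z = a ^ d) : ∃ b : K, b ^ z = a := by
  rcases eq_or_ne a 0 with rfl | ha
  · exact ⟨0, zero_pow (by omega)⟩
  have he0 : e ≠ 0 := by
    rintro rfl
    rw [zero_pow (by omega)] at he
    exact ha ((pow_eq_zero_iff (by omega)).mp he.symm)
  have hb := Nat.gcd_eq_gcd_ab d z
  rw [hco.gcd_eq_one] at hb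
  refine ⟨e ^ (Nat.gcdA d z) * a ^ (Nat.gcdB d z), ?_⟩
  have h1 : (e ^ (Nat.gcdA d z) * a ^ (Nat.gcdB d z)) ^ z =
      (e ^ z) ^ (Nat.gcdA d z) * a ^ ((z : ℤ) * Nat.gcdB d z) := by
    rw [mul_pow, ← zpow_natCast, ← zpow_natCast, ← zpow_natCast, ← zpow_mul, ← zpow_mul, ← zpow_mul,
      mul_comm (Nat.gcdA d z), mul_comm (Nat.gcdB d z)]
  rw [h1, he, ← zpow_natCast, ← zpow_mul, ← zpow_add₀ ha, ← hb]
  simp

theorem no_small_factor {F : ℤ[X]} {z R : ℕ} (hz : 1 ≤ z)
    (hzR : ∀ p : ℕ, p.Prime → p ∣ z → R ≤ p)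
    (hF : ¬ ∃ G : ℚ[X], F.map (Int.castRingHom ℚ) = G ^ z) (Q : (FractionRing ℤ[X])[X])
    (hQ : Q ∣ X ^ z - C (algebraMap ℤ[X] (FractionRing ℤ[X]) F)) (hQR : Q.natDegree < R) :
    Q.natDegree = 0 := by
  by_contra hd
  have hd1 : 1 ≤ Q.natDegree := Nat.one_le_iff_ne_zero.mpr hd
  obtain ⟨e, he⟩ := factor_power hz Q hQ
  obtain ⟨b, hb⟩ := power_of_coprime hd1 hz (coprime_of_lt hzR hd1 hQR) he
  obtain ⟨A, B, hB, rfl⟩ := IsFractionRing.div_surjective (A := ℤ[X]) b
  have hinj : Function.Injective (algebraMap ℤ[X] (FractionRing ℤ[X])) :=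
    IsFractionRing.injective ℤ[X] (FractionRing ℤ[X])
  have hB0 : B ≠ 0 := nonZeroDivisors.ne_zero hB
  have hB1 : algebraMap ℤ[X] (FractionRing ℤ[X]) B ≠ 0 := by
    intro h
    exact hB0 (hinj (by rw [h, map_zero]))
  apply hF
  apply Pool.Agent.TH888.B1.perfect_of_rel (A := A) (B := -B) (z := z) (by omega)
    (Or.inr (neg_ne_zero.mpr hB0))
  rw [neg_neg]
  apply hinj
  rw [map_mul, map_pow, map_pow, ← hb, div_pow]
  field_simp

/-- the left side of the equation -/
noncomputable def Lf (f g : ℤ[X]) (l m : ℕ) (s t : ℤ) : ℤ[X] := C t * (f ^ l + C s * g ^ m)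

theorem unit_of_zero {R : Type*} [CommRing R] {x y s : R} (h : IsCoprime x y) (hs : IsUnit s)
    {l m : ℕ} (hl : 0 < l) (h0 : x ^ l + s * y ^ m = 0) : IsUnit x := by
  have h1 : x ∣ s * y ^ m := by
    have : s * y ^ m = - x ^ l := by linear_combination h0
    rw [this]
    exact (dvd_pow_self x hl.ne').neg_right
  have h2 : x ∣ y ^ m := (hs.dvd_mul_left).mp h1
  exact (h.pow_right (n := m)).isUnit_of_dvd' dvd_rfl h2

/-- the left side is not a perfect power -/
theorem lf_not_pow {f g : ℤ[X]} (hf0 : f ≠ 0) (hg : g ≠ 0) (hfg : 0 < f.natDegree ∨ 0 < g.natDegree)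
    (hcop : IsCoprime (f.map (Int.castRingHom ℚ)) (g.map (Int.castRingHom ℚ))) {l m k : ℕ}
    (hl : 0 < l) (hm : 0 < m) (hk : 0 < k) (hineq : m * k + k * l + l * m ≤ l * m * k) {s t : ℤ}
    (hs : s = 1 ∨ s = -1) (ht : t = 1 ∨ t = -1) :
    Lf f g l m s t ≠ 0 ∧ ¬ ∃ G : ℚ[X], (Lf f g l m s t).map (Int.castRingHom ℚ) = G ^ k := by
  have hinj : Function.Injective (Int.castRingHom ℚ) := (Int.castRingHom ℚ).injective_int
  have hne : ∀ {P : ℤ[X]}, P ≠ 0 → P.map (Int.castRingHom ℚ) ≠ 0 := fun {P} hP =>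
    (Polynomial.map_ne_zero_iff hinj).mpr hP
  have hs0 : (Int.castRingHom ℚ) s ≠ 0 := by rcases hs with rfl | rfl <;> simp
  have ht0 : -(Int.castRingHom ℚ) t ≠ 0 := by rcases ht with rfl | rfl <;> simp
  have htt : C ((Int.castRingHom ℚ) t) * C ((Int.castRingHom ℚ) t) = (1 : ℚ[X]) := by
    rcases ht with rfl | rfl <;> simp
  have hss : C ((Int.castRingHom ℚ) s) * C ((Int.castRingHom ℚ) s) = (1 : ℚ[X]) := by
    rcases hs with rfl | rfl <;> simp
  have hsu : IsUnit (C ((Int.castRingHom ℚ) s) : ℚ[X]) :=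
    isUnit_C.mpr (isUnit_iff_ne_zero.mpr hs0)
  have hdeg0 : ∀ {P : ℤ[X]}, IsUnit (P.map (Int.castRingHom ℚ)) → P.natDegree = 0 := by
    intro P h
    have h1 := natDegree_eq_zero_of_isUnit h
    rwa [natDegree_map_eq_of_injective hinj] at h1
  have hL0 : Lf f g l m s t ≠ 0 := by
    intro h0
    have h1 := congrArg (fun P : ℤ[X] => P.map (Int.castRingHom ℚ)) h0
    simp only [Lf, Polynomial.map_add, Polynomial.map_mul, Polynomial.map_pow, map_C,
      Polynomial.map_zero] at h1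
    rcases mul_eq_zero.mp h1 with h | h
    · rw [h, mul_zero] at htt
      exact zero_ne_one htt
    · have e1 := hdeg0 (unit_of_zero hcop hsu hl h)
      have e2 : (g.map (Int.castRingHom ℚ)) ^ m + C ((Int.castRingHom ℚ) s) *
          (f.map (Int.castRingHom ℚ)) ^ l = 0 := by
        linear_combination C ((Int.castRingHom ℚ) s) * h - (g.map (Int.castRingHom ℚ)) ^ m * hss
      have e3 := hdeg0 (unit_of_zero hcop.symm hsu hm e2)
      omega
  refine ⟨hL0, ?_⟩
  rintro ⟨G, hG⟩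
  have hG0 : G ≠ 0 := by
    rintro rfl
    rw [zero_pow hk.ne'] at hG
    exact hne hL0 hG
  simp only [Lf, Polynomial.map_add, Polynomial.map_mul, Polynomial.map_pow, map_C] at hG
  have h2 := Polynomial.flt_catalan (k := ℚ) hl.ne' hm.ne' hk.ne' hineq
    (by exact_mod_cast hl.ne') (by exact_mod_cast hm.ne') (by exact_mod_cast hk.ne')
    (hne hf0) (hne hg) hG0 hcop (u := 1) (v := (Int.castRingHom ℚ) s)
    (w := -(Int.castRingHom ℚ) t) one_ne_zero hs0 ht0 (by
      rw [C_neg, C_1, one_mul, ← hG]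
      linear_combination (-(f.map (Int.castRingHom ℚ) ^ l + C ((Int.castRingHom ℚ) s) *
        g.map (Int.castRingHom ℚ) ^ m)) * htt)
  rw [natDegree_map_eq_of_injective hinj, natDegree_map_eq_of_injective hinj] at h2
  omega

theorem lf_natDegree {f g : ℤ[X]} {l m B D : ℕ} {s t : ℤ} (hl : l ≤ B) (hm : m ≤ B)
    (hD : f.natDegree ≤ D) (hD' : g.natDegree ≤ D) : (Lf f g l m s t).natDegree ≤ B * D := by
  have h1 : ∀ {P : ℤ[X]} {i : ℕ}, i ≤ B → P.natDegree ≤ D → (P ^ i).natDegree ≤ B * D := by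
    intro P i hi hP
    exact natDegree_pow_le.trans (Nat.mul_le_mul hi hP)
  unfold Lf
  refine (natDegree_C_mul_le _ _).trans ((natDegree_add_le _ _).trans (max_le (h1 hl hD) ?_))
  exact (natDegree_C_mul_le _ _).trans (h1 hm hD')

end Pool.Agent.N741.PB
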