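import Mathlib
import Pool.Agent.TH888.B1.Sieg

/-!
The `r`-adic determinant method for `w ^ z = F n` with several powers of `w`, in the form of the box
principle: auxiliary polynomials of degree less than `I` in `w`.
-/

set_option autoImplicit false

namespace Pool.Agent.N741.PB

open Finset Polynomial

theorem sum_sub_range (T : ℕ) : 2 * ∑ k ∈ range T, (T - k) = T * (T + 1) := by
  induction T with
  | zero => simp
  | succ n ih =>
    rw [sum_range_succ']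
    have h1 : ∑ i ∈ range n, (n + 1 - (i + 1)) = ∑ i ∈ range n, (n - i) :=
      sum_congr rfl fun i _ => by omega
    rw [h1, mul_add, ih]
    simp only [Nat.sub_zero]
    ring

theorem prod_residues_sq (r T : ℕ) :
    (∏ k : Fin T, r ^ (T - (k : ℕ))) ^ 2 = r ^ (T * (T + 1)) := by
  rw [Fin.prod_univ_eq_prod_range (fun k => r ^ (T - k)), prod_pow_eq_pow_sum, ← pow_mul, mul_comm,
    sum_sub_range]

theorem prod_pow_sq (N m : ℕ) : (∏ j : Fin (m + 1), N ^ (j : ℕ)) ^ 2 = (N ^ m) ^ (m + 1) := by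
  rw [Fin.prod_univ_eq_prod_range (fun k => N ^ k) (m + 1), prod_pow_eq_pow_sum, ← pow_mul, ← pow_mul]
  congr 1
  rw [Finset.sum_range_id_mul_two]
  simp [mul_comm]

/-- the weights of the monomials `n ^ j w ^ i` -/
def wq (N W I a : ℕ) (j : Fin I × Fin (a + 1)) : ℕ := N ^ (j.2 : ℕ) * W ^ (j.1 : ℕ)

theorem prod_weights_sq (N W I a : ℕ) (hI : 1 ≤ I) :
    (∏ j, wq N W I a j) ^ 2 = (N ^ a * W ^ (I - 1)) ^ (I * (a + 1)) := by
  obtain ⟨m, rfl⟩ := Nat.exists_eq_add_of_le' hI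
  unfold wq
  rw [Fintype.prod_prod_type]
  simp only [prod_mul_distrib, prod_const, card_univ, Fintype.card_fin, Nat.add_sub_cancel]
  rw [mul_pow, ← pow_mul, mul_comm (m + 1) 2, pow_mul, prod_pow_sq]
  have h1 : ((∏ x : Fin (m + 1), W ^ (x : ℕ)) ^ (a + 1)) ^ 2 =
      ((∏ x : Fin (m + 1), W ^ (x : ℕ)) ^ 2) ^ (a + 1) := by ring
  rw [prod_pow, h1, prod_pow_sq, mul_pow]
  ring

theorem card_ineq' {r a I N W H : ℕ} (hI : 1 ≤ I) (hN : 1 ≤ N) (hW : 1 ≤ W)
    (hbig : N ^ a * W ^ (I - 1) * (I * (a + 1)) ^ 2 < r ^ (I * (a + 1) - 1))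
    (hH : r ^ (I * (a + 1)) ≤ (H + 1) * (I * (a + 1))) :
    ∏ k : Fin (I * (a + 1)), r ^ (I * (a + 1) - (k : ℕ)) <
      ∏ j : Fin I × Fin (a + 1), (H / wq N W I a j + 1) := by
  obtain ⟨T, hT⟩ : ∃ T, T = I * (a + 1) := ⟨_, rfl⟩
  have hTpos : 1 ≤ T := by rw [hT]; exact Nat.mul_pos hI (Nat.succ_pos a)
  have hcardT : Fintype.card (Fin I × Fin (a + 1)) = T := by
    rw [Fintype.card_prod, Fintype.card_fin, Fintype.card_fin, hT]
  have hw := prod_weights_sq N W I a hI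
  rw [← hT] at hbig hH hw ⊢
  have hqpos : ∀ j, 0 < wq N W I a j := fun j => by unfold wq; positivity
  obtain ⟨Q, hQ⟩ : ∃ Q, Q = ∏ j, wq N W I a j := ⟨_, rfl⟩
  obtain ⟨B, hB⟩ : ∃ B, B = ∏ j : Fin I × Fin (a + 1), (H / wq N W I a j + 1) := ⟨_, rfl⟩
  have h1 : (H + 1) ^ T ≤ B * Q := by
    rw [hB, hQ, ← prod_mul_distrib]
    have h2 : (H + 1) ^ T = ∏ _j : Fin I × Fin (a + 1), (H + 1) := by
      rw [prod_const, card_univ, hcardT]
    rw [h2]
    apply prod_le_prod (fun _ _ => Nat.zero_le _)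
    intro j _
    have h3 : H < wq N W I a j * (H / wq N W I a j + 1) := Nat.lt_mul_div_succ H (hqpos j)
    rw [mul_comm]
    exact h3
  rw [← hB]
  rw [← hQ] at hw
  have hBpos : 0 < B := by rw [hB]; exact prod_pos fun _ _ => Nat.succ_pos _
  have h4 : r ^ (T * T) ≤ (H + 1) ^ T * T ^ T := by
    rw [pow_mul, ← mul_pow]
    exact Nat.pow_le_pow_left hH _
  have h5 : (N ^ a * W ^ (I - 1) * T ^ 2) ^ T < (r ^ (T - 1)) ^ T :=
    Nat.pow_lt_pow_left hbig (by omega)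
  have h6 : (r ^ (T * T)) ^ 2 < B ^ 2 * (r ^ (T - 1)) ^ T := by
    calc (r ^ (T * T)) ^ 2 ≤ ((H + 1) ^ T * T ^ T) ^ 2 := Nat.pow_le_pow_left h4 2
      _ ≤ ((B * Q) * T ^ T) ^ 2 := Nat.pow_le_pow_left (Nat.mul_le_mul_right _ h1) 2
      _ = B ^ 2 * (Q ^ 2 * (T ^ 2) ^ T) := by ring
      _ = B ^ 2 * (N ^ a * W ^ (I - 1) * T ^ 2) ^ T := by rw [hw, ← mul_pow]
      _ < _ := Nat.mul_lt_mul_of_pos_left h5 (by positivity)
  have h7 : (∏ k : Fin T, r ^ (T - (k : ℕ))) ^ 2 < B ^ 2 := by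
    rw [prod_residues_sq]
    have h8 : (r ^ (T * T)) ^ 2 = r ^ (T * (T + 1)) * (r ^ (T - 1)) ^ T := by
      rw [← pow_mul, ← pow_mul, ← pow_add]
      congr 1
      obtain ⟨t, rfl⟩ := Nat.exists_eq_add_of_le' hTpos
      simp only [Nat.add_sub_cancel]
      ring
    rw [h8] at h6
    exact Nat.lt_of_mul_lt_mul_right h6
  exact lt_of_pow_lt_pow_left₀ 2 (Nat.zero_le _) h7

theorem coeff_fin_sum {a : ℕ} (c : Fin (a + 1) → ℤ) (i : Fin (a + 1)) :
    (∑ j : Fin (a + 1), C (c j) * X ^ (j : ℕ) : ℤ[X]).coeff i = c i := by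
  rw [finsetSum_coeff]
  simp only [coeff_C_mul, coeff_X_pow]
  rw [Finset.sum_eq_single i]
  · simp
  · intro j _ hj
    have : (i : ℕ) ≠ j := fun h => hj (Fin.ext h.symm)
    simp [this]
  · simp

/-- the auxiliary polynomials -/
theorem box_class (P : ℤ[X]) {r a I N W : ℕ} (n₀ : ℤ) (hI : 1 ≤ I) (hN : 1 ≤ N) (hW : 1 ≤ W)
    (hr : 2 ≤ r)
    (hbig : N ^ a * W ^ (I - 1) * (I * (a + 1)) ^ 2 < r ^ (I * (a + 1) - 1)) :
    ∃ A : Fin I → ℤ[X], A ≠ 0 ∧ (∀ i, (A i).natDegree ≤ a) ∧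
      ∀ n w : ℤ, |n| ≤ N → |w| ≤ W → (r : ℤ) ∣ n - n₀ →
        (r : ℤ) ^ (I * (a + 1)) ∣ w - P.eval n → ∑ i, (A i).eval n * w ^ (i : ℕ) = 0 := by
  classical
  obtain ⟨T, hT⟩ : ∃ T, T = I * (a + 1) := ⟨_, rfl⟩
  have hTpos : 0 < T := by rw [hT]; exact Nat.mul_pos hI (Nat.succ_pos a)
  obtain ⟨H, hH⟩ : ∃ H, H = (r ^ T - 1) / T := ⟨_, rfl⟩
  have hrT : 1 ≤ r ^ T := Nat.one_le_pow _ _ (by omega)
  have hH1 : T * H < r ^ T := by
    have : T * H ≤ r ^ T - 1 := by rw [hH]; exact Nat.mul_div_le _ _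
    omega
  have hH2 : r ^ T ≤ (H + 1) * T := by
    have : r ^ T - 1 < T * (H + 1) := by rw [hH]; exact Nat.lt_mul_div_succ _ hTpos
    rw [mul_comm]; omega
  have hcard := card_ineq' (H := H) hI hN hW hbig (by rw [← hT]; exact hH2)
  rw [← hT] at hcard ⊢
  set q : Fin I × Fin (a + 1) → ℕ := wq N W I a with hq
  have hqpos : ∀ j, 0 < q j := fun j => by rw [hq]; unfold wq; positivity
  set Q : (Fin I × Fin (a + 1) → ℕ) → ℤ[X] := fun v =>
    ∑ i : Fin I, (∑ j : Fin (a + 1), C (v (i, j) : ℤ) * X ^ (j : ℕ)) * P ^ (i : ℕ) with hQ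
  set box := Fintype.piFinset (fun j => range (H / q j + 1)) with hbox
  set Φ : (Fin I × Fin (a + 1) → ℕ) → (Fin T → ℕ) := fun v k =>
    ((taylor n₀ (Q v)).coeff k % ((r : ℤ) ^ (T - k))).toNat with hΦ
  set tgt := Fintype.piFinset (fun k : Fin T => range (r ^ (T - (k : ℕ)))) with htgt
  have hpos : ∀ k : ℕ, (0 : ℤ) < (r : ℤ) ^ k := by
    intro k
    have : (0 : ℤ) < r := by exact_mod_cast (by omega : 0 < r)
    positivity
  have hmaps : ∀ v ∈ box, Φ v ∈ tgt := by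
    intro v _
    rw [htgt, Fintype.mem_piFinset]
    intro k
    rw [mem_range]
    have h1 := Int.emod_lt_of_pos ((taylor n₀ (Q v)).coeff k) (hpos (T - k))
    have h2 := Int.emod_nonneg ((taylor n₀ (Q v)).coeff k) (hpos (T - k)).ne'
    simp only [hΦ]
    zify
    rw [Int.toNat_of_nonneg h2]
    exact h1
  have hcard' : tgt.card < box.card := by
    rw [htgt, hbox, Fintype.card_piFinset, Fintype.card_piFinset]
    simp only [card_range]
    exact hcard
  obtain ⟨v, hv, v', hv', hne, heq⟩ := exists_ne_map_eq_of_card_lt_of_maps_to hcard' hmaps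
  rw [hbox, Fintype.mem_piFinset] at hv hv'
  set d : Fin I × Fin (a + 1) → ℤ := fun j => (v j : ℤ) - v' j with hd
  have hdabs : ∀ j, |d j| ≤ (H / q j : ℕ) := by
    intro j
    have h1 := hv j
    have h2 := hv' j
    rw [mem_range] at h1 h2
    simp only [hd]
    rw [abs_le]
    constructor <;> omega
  have hdabs' : ∀ j, |d j| * q j ≤ H := by
    intro j
    calc |d j| * q j ≤ (H / q j : ℕ) * (q j : ℤ) :=
          mul_le_mul_of_nonneg_right (hdabs j) (by positivity)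
      _ ≤ H := by exact_mod_cast Nat.div_mul_le_self H (q j)
  set A : Fin I → ℤ[X] := fun i => ∑ j : Fin (a + 1), C (d (i, j)) * X ^ (j : ℕ) with hA
  refine ⟨A, ?_, ?_, ?_⟩
  · intro hA0
    apply hne
    funext j
    have h1 : d j = 0 := by
      have h2 := coeff_fin_sum (fun j' => d (j.1, j')) j.2
      have h3 : A j.1 = 0 := by rw [hA0]; rfl
      simp only [hA] at h3
      rw [h3, coeff_zero] at h2
      exact h2.symm
    simp only [hd] at h1
    omega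
  · intro i
    simp only [hA]
    apply natDegree_sum_le_of_forall_le
    intro j _
    refine (natDegree_C_mul_X_pow_le _ _).trans ?_
    have := j.isLt
    omega
  · intro n w hn hw hn₀ hwP
    have hQd : Q v - Q v' = ∑ i : Fin I, A i * P ^ (i : ℕ) := by
      simp only [hQ, hA, hd, C_sub, sub_mul, sum_sub_distrib]
    have h1 : (r : ℤ) ^ T ∣ (Q v - Q v').eval n := by
      apply Pool.Agent.TH888.B1.taylor_dvd _ _ _ n₀ _ _ hn₀
      intro k
      rw [map_sub, coeff_sub]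
      have h2 := congrFun heq k
      simp only [hΦ] at h2
      have h3 : (taylor n₀ (Q v)).coeff k % ((r : ℤ) ^ (T - k)) =
          (taylor n₀ (Q v')).coeff k % ((r : ℤ) ^ (T - k)) := by
        have e1 := Int.emod_nonneg ((taylor n₀ (Q v)).coeff k) (hpos (T - k)).ne'
        have e2 := Int.emod_nonneg ((taylor n₀ (Q v')).coeff k) (hpos (T - k)).ne'
        rw [← Int.toNat_of_nonneg e1, ← Int.toNat_of_nonneg e2, h2]
      exact Int.ModEq.dvd (show (taylor n₀ (Q v')).coeff k ≡ (taylor n₀ (Q v)).coeff k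
        [ZMOD ((r : ℤ) ^ (T - (k : ℕ)))] from h3.symm)
    have h2 : (r : ℤ) ^ T ∣ ∑ i, (A i).eval n * w ^ (i : ℕ) := by
      have e1 : ∑ i, (A i).eval n * w ^ (i : ℕ) =
          (Q v - Q v').eval n + ∑ i, (A i).eval n * (w ^ (i : ℕ) - P.eval n ^ (i : ℕ)) := by
        rw [hQd, eval_finsetSum, ← sum_add_distrib]
        apply sum_congr rfl
        intro i _
        rw [eval_mul, eval_pow]; ring
      rw [e1]
      refine dvd_add h1 (Finset.dvd_sum fun i _ => Dvd.dvd.mul_left ?_ _)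
      exact hwP.trans (sub_dvd_pow_sub_pow _ _ _)
    have hTr : ∀ j : Fin I × Fin (a + 1), |d j * n ^ (j.2 : ℕ) * w ^ (j.1 : ℕ)| ≤ H := by
      intro j
      rw [abs_mul, abs_mul, abs_pow, abs_pow, mul_assoc]
      calc |d j| * (|n| ^ (j.2 : ℕ) * |w| ^ (j.1 : ℕ))
          ≤ |d j| * ((N : ℤ) ^ (j.2 : ℕ) * (W : ℤ) ^ (j.1 : ℕ)) := by gcongr
        _ = |d j| * q j := by rw [hq]; unfold wq; push_cast; ring
        _ ≤ H := hdabs' j
    have h3 : |∑ i, (A i).eval n * w ^ (i : ℕ)| < (r : ℤ) ^ T := by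
      have e1 : ∑ i, (A i).eval n * w ^ (i : ℕ) =
          ∑ j : Fin I × Fin (a + 1), d j * n ^ (j.2 : ℕ) * w ^ (j.1 : ℕ) := by
        rw [Fintype.sum_prod_type]
        apply sum_congr rfl
        intro i _
        simp only [hA, eval_finsetSum, eval_mul, eval_C, eval_pow, eval_X, sum_mul]
      rw [e1]
      calc |∑ j : Fin I × Fin (a + 1), d j * n ^ (j.2 : ℕ) * w ^ (j.1 : ℕ)|
          ≤ ∑ j : Fin I × Fin (a + 1), |d j * n ^ (j.2 : ℕ) * w ^ (j.1 : ℕ)| :=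
            abs_sum_le_sum_abs _ _
        _ ≤ ∑ _j : Fin I × Fin (a + 1), (H : ℤ) := sum_le_sum fun j _ => hTr j
        _ = (T : ℤ) * H := by
          rw [sum_const, card_univ, Fintype.card_prod, Fintype.card_fin, Fintype.card_fin, ← hT,
            nsmul_eq_mul]
        _ < (r : ℤ) ^ T := by exact_mod_cast hH1
    exact Int.eq_zero_of_abs_lt_dvd h2 h3

end Pool.Agent.N741.PB
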