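import Mathlib

/-!
Elimination of `w` from a relation of small degree in `w` and `w ^ z = F n`.
-/

set_option autoImplicit false

namespace Pool.Agent.N741.PB

open Finset Polynomial

theorem natDegree_det_le {m : ℕ} (M : Matrix (Fin m) (Fin m) ℤ[X]) (b : Fin m → ℕ)
    (h : ∀ i j, (M i j).natDegree ≤ b j) : M.det.natDegree ≤ ∑ j, b j := by
  rw [Matrix.det_apply]
  apply natDegree_sum_le_of_forall_le
  intro σ _
  refine (natDegree_smul_le _ _).trans ?_
  exact (natDegree_prod_le _ _).trans (sum_le_sum fun i _ => h _ _)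

theorem natDegree_resultant_le (f g : ℤ[X][X]) (m n a b : ℕ) (hf : ∀ i, (f.coeff i).natDegree ≤ a)
    (hg : ∀ i, (g.coeff i).natDegree ≤ b) : (resultant f g m n).natDegree ≤ m * b + n * a := by
  unfold resultant
  refine (natDegree_det_le _ (fun j => j.addCases (fun _ => b) (fun _ => a)) ?_).trans ?_
  · intro i j
    refine j.addCases ?_ ?_
    · intro j
      rw [sylvester, Matrix.of_apply, Fin.addCases_left, Fin.addCases_left]
      split_ifs
      · exact hg _
      · simp
    · intro j
      rw [sylvester, Matrix.of_apply, Fin.addCases_right, Fin.addCases_right]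
      split_ifs
      · exact hf _
      · simp
  · rw [Fin.sum_univ_add]
    simp

theorem eliminate {F : ℤ[X]} {z I a : ℕ} (hz : 1 ≤ z) (A : Fin I → ℤ[X]) (hA : A ≠ 0)
    (ha : ∀ i, (A i).natDegree ≤ a)
    (hF : ∀ Q : (FractionRing ℤ[X])[X], Q ∣ X ^ z - C (algebraMap ℤ[X] (FractionRing ℤ[X]) F) →
      Q.natDegree < I → Q.natDegree = 0) :
    ∃ R : ℤ[X], R ≠ 0 ∧ R.natDegree ≤ z * a + I * F.natDegree ∧ ∀ n w : ℤ, w ^ z = F.eval n →
      ∑ i, (A i).eval n * w ^ (i : ℕ) = 0 → R.eval n = 0 := by
  classical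
  set P : ℤ[X][X] := ∑ i, C (A i) * X ^ (i : ℕ) with hP
  have hPcoeff : ∀ i : Fin I, P.coeff i = A i := by
    intro i
    rw [hP, finsetSum_coeff]
    simp only [coeff_C_mul, coeff_X_pow]
    rw [Finset.sum_eq_single i]
    · simp
    · intro j _ hj
      have : (i : ℕ) ≠ j := fun h => hj (Fin.ext h.symm)
      simp [this]
    · simp
  have hPcoeff' : ∀ i : ℕ, (P.coeff i).natDegree ≤ a := by
    intro i
    by_cases hi : i < I
    · have := hPcoeff ⟨i, hi⟩
      simp only at this
      rw [this]; exact ha _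
    · rw [hP, finsetSum_coeff]
      have : ∑ j : Fin I, (C (A j) * X ^ (j : ℕ) : ℤ[X][X]).coeff i = 0 := by
        apply sum_eq_zero
        intro j _
        rw [coeff_C_mul, coeff_X_pow, if_neg (by have := j.isLt; omega), mul_zero]
      rw [this]; simp
  have hP0 : P ≠ 0 := by
    intro h
    apply hA
    funext i
    rw [← hPcoeff i, h, coeff_zero]; rfl
  have hI : 0 < I := by
    rcases Nat.eq_zero_or_pos I with rfl | h
    · exfalso; apply hA; funext i; exact i.elim0
    · exact h
  have hPdeg : P.natDegree < I := by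
    rw [hP]
    refine lt_of_le_of_lt (natDegree_sum_le_of_forall_le (n := I - 1) _ _ fun i _ => ?_) (by omega)
    refine (natDegree_C_mul_X_pow_le _ _).trans ?_
    have := i.isLt
    omega
  set Z : ℤ[X][X] := X ^ z - C F with hZ
  have hZdeg : Z.natDegree = z := natDegree_X_pow_sub_C
  have hZcoeff : ∀ i, (Z.coeff i).natDegree ≤ F.natDegree := by
    intro i
    rw [hZ, coeff_sub, coeff_X_pow, coeff_C]
    split_ifs
    · exact (natDegree_sub_le _ _).trans (by simp)
    · exact (natDegree_sub_le _ _).trans (by simp)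
    · exact (natDegree_sub_le _ _).trans (by simp)
    · simp
  refine ⟨resultant P Z, ?_, ?_, ?_⟩
  · intro h0
    set φ : ℤ[X] →+* FractionRing ℤ[X] := algebraMap ℤ[X] (FractionRing ℤ[X]) with hφ
    have hinj : Function.Injective φ := IsFractionRing.injective ℤ[X] (FractionRing ℤ[X])
    have h1 : resultant (P.map φ) (Z.map φ) = 0 := by
      rw [natDegree_map_eq_of_injective hinj, natDegree_map_eq_of_injective hinj, resultant_map_map,
        h0, map_zero]
    rw [resultant_eq_zero_iff] at h1
    apply h1.2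
    rw [← EuclideanDomain.gcd_isUnit_iff]
    set D := EuclideanDomain.gcd (P.map φ) (Z.map φ) with hD
    have hPm : P.map φ ≠ 0 := (Polynomial.map_ne_zero_iff hinj).mpr hP0
    have h2 : D ∣ P.map φ := EuclideanDomain.gcd_dvd_left _ _
    have h3 : D ∣ Z.map φ := EuclideanDomain.gcd_dvd_right _ _
    have h4 : D.natDegree < I := by
      refine lt_of_le_of_lt (natDegree_le_of_dvd h2 hPm) ?_
      rw [natDegree_map_eq_of_injective hinj]; exact hPdeg
    have h5 : Z.map φ = X ^ z - C (φ F) := by rw [hZ]; simp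
    rw [h5] at h3
    have h6 := hF D h3 h4
    have hD0 : D ≠ 0 := fun h => hPm (by rw [h, zero_dvd_iff] at h2; exact h2)
    rw [Polynomial.isUnit_iff_degree_eq_zero, degree_eq_natDegree hD0, h6]; rfl
  · refine (natDegree_resultant_le P Z _ _ a F.natDegree hPcoeff' hZcoeff).trans ?_
    rw [hZdeg, add_comm]
    gcongr
  · intro n w hw hrel
    obtain ⟨p, q, -, -, h1⟩ := exists_mul_add_mul_eq_C_resultant P Z le_rfl le_rfl
      (Or.inr (by rw [hZdeg]; omega))
    have h2 := congrArg (fun G : ℤ[X][X] => (G.eval (C w)).eval n) h1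
    simp only [eval_add, eval_mul, eval_C] at h2
    have h3 : (P.eval (C w)).eval n = 0 := by
      rw [hP, eval_finsetSum, eval_finsetSum, ← hrel]
      apply sum_congr rfl
      intro i _
      simp
    have h4 : (Z.eval (C w)).eval n = 0 := by
      rw [hZ]; simp [hw]
    rw [h3, h4, zero_mul, zero_mul, zero_add] at h2
    exact h2.symm

end Pool.Agent.N741.PB
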