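import Mathlib
import Pool.Agent.N741.PB.Det
import Pool.Agent.N741.PB.Res

/-!
The number of integers `n` with `F n = w ^ z`, by the determinant method for several primes.
-/

set_option autoImplicit false

namespace Pool.Agent.N741.PB

open Finset Polynomial

/-- `X ^ z - F` has no factor of degree between `1` and `R - 1` over the field of rational functions -/
def NoFac (F : ℤ[X]) (z R : ℕ) : Prop := ∀ Q : (FractionRing ℤ[X])[X],
  Q ∣ X ^ z - C (algebraMap ℤ[X] (FractionRing ℤ[X]) F) → Q.natDegree < R → Q.natDegree = 0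

theorem int_roots_card (Q : ℤ[X]) (hQ : Q ≠ 0) (S : Finset ℤ) (hS : ∀ n ∈ S, Q.eval n = 0) :
    S.card ≤ Q.natDegree := by
  classical
  have hsub : S ⊆ Q.roots.toFinset := by
    intro x hx
    rw [Multiset.mem_toFinset, mem_roots hQ, IsRoot.def]
    exact hS x hx
  calc S.card ≤ Q.roots.toFinset.card := card_le_card hsub
    _ ≤ Q.roots.card := Multiset.toFinset_card_le _
    _ ≤ Q.natDegree := card_roots' Q

theorem class_count {F : ℤ[X]} {r a R N W z D : ℕ} (hr : r.Prime) (hz : 1 ≤ z) (hrz : ¬ r ∣ z)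
    (hR : 1 ≤ R) (hF : NoFac F z R) (hD : F.natDegree ≤ D) (hN : 1 ≤ N) (hW : 1 ≤ W)
    (hbig : N ^ a * W ^ (R - 1) * (R * (a + 1)) ^ 2 < r ^ (R * (a + 1) - 1)) (n₀ w₀ : ℤ)
    (hw₀ : ¬ (r : ℤ) ∣ w₀) (S : Finset ℤ) (hS : ∀ n ∈ S, |n| ≤ N ∧ (r : ℤ) ∣ n - n₀ ∧
      ∃ w : ℤ, |w| ≤ W ∧ (r : ℤ) ∣ w - w₀ ∧ w ^ z = F.eval n) : S.card ≤ z * a + R * D := by
  obtain ⟨P, hP⟩ := Pool.Agent.TH888.B1.hensel_poly F hr hrz n₀ w₀ hw₀ (R * (a + 1))
  obtain ⟨A, hA, hAd, hroot⟩ := box_class P n₀ hR hN hW hr.two_le hbig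
  obtain ⟨Q, hQ, hQd, hQr⟩ := eliminate hz A hA hAd hF
  refine (int_roots_card Q hQ S ?_).trans (hQd.trans (Nat.add_le_add_left (Nat.mul_le_mul_left _ hD) _))
  intro n hn
  obtain ⟨h1, h2, w, h3, h4, h5⟩ := hS n hn
  exact hQr n w h5 (hroot n w h1 h3 h2 (hP n w h2 h4 h5))

/-- one prime -/
theorem prime_count {F : ℤ[X]} {r a R N W z D : ℕ} (hr : r.Prime) (hz : 1 ≤ z) (hrz : ¬ r ∣ z)
    (hR : 1 ≤ R) (hF : NoFac F z R) (hD : F.natDegree ≤ D) (hN : 1 ≤ N) (hW : 1 ≤ W)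
    (hbig : N ^ a * W ^ (R - 1) * (R * (a + 1)) ^ 2 < r ^ (R * (a + 1) - 1))
    (S : Finset ℤ) (hS : ∀ n ∈ S, |n| ≤ N ∧
      ∃ w : ℤ, |w| ≤ W ∧ ¬ (r : ℤ) ∣ w ∧ w ^ z = F.eval n) : S.card ≤ r * (z * (z * a + R * D)) := by
  classical
  have : Fact r.Prime := ⟨hr⟩
  have : NeZero r := ⟨hr.ne_zero⟩
  set φ := Int.castRingHom (ZMod r) with hφ
  set cls : ZMod r → ZMod r → Finset ℤ := fun x y => S.filter (fun n : ℤ => (n : ZMod r) = x ∧
    ∃ w : ℤ, |w| ≤ W ∧ (w : ZMod r) = y ∧ w ^ z = F.eval n) with hcls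
  set S₁ := (univ : Finset (ZMod r)).biUnion (fun x =>
    (((nthRoots z ((F.map φ).eval x)).toFinset).erase 0).biUnion (fun y => cls x y)) with hS₁
  have hval : ∀ x : ZMod r, (((x.val : ℕ) : ℤ) : ZMod r) = x := by
    intro x
    rw [Int.cast_natCast, ZMod.natCast_zmod_val]
  have h1 : S₁.card ≤ r * (z * (z * a + R * D)) := by
    have h2 : ∀ x ∈ (univ : Finset (ZMod r)),
        ((((nthRoots z ((F.map φ).eval x)).toFinset).erase 0).biUnion (fun y => cls x y)).card ≤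
          z * (z * a + R * D) := by
      intro x _
      refine (card_biUnion_le_card_mul _ _ (z * a + R * D) ?_).trans (Nat.mul_le_mul_right _ ?_)
      · intro y hy
        rw [mem_erase] at hy
        apply class_count hr hz hrz hR hF hD hN hW hbig ((x.val : ℕ) : ℤ) ((y.val : ℕ) : ℤ)
        · intro h
          apply hy.1
          rw [← hval y]
          exact (ZMod.intCast_zmod_eq_zero_iff_dvd _ _).mpr h
        · intro n hn
          simp only [hcls, mem_filter] at hn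
          obtain ⟨h3, h5, w, h6, h7, h8⟩ := hn
          refine ⟨(hS n h3).1, ?_, w, h6, ?_, h8⟩
          · rw [← ZMod.intCast_zmod_eq_zero_iff_dvd, Int.cast_sub, hval, h5, sub_self]
          · rw [← ZMod.intCast_zmod_eq_zero_iff_dvd, Int.cast_sub, hval, h7, sub_self]
      · calc _ ≤ ((nthRoots z ((F.map φ).eval x)).toFinset).card := card_erase_le
          _ ≤ (nthRoots z ((F.map φ).eval x)).card := Multiset.toFinset_card_le _
          _ ≤ z := card_nthRoots z _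
    refine (card_biUnion_le_card_mul _ _ _ h2).trans ?_
    rw [card_univ, ZMod.card]
  refine le_trans (card_le_card ?_) h1
  intro n hn
  obtain ⟨h3, w, h4, h5, h6⟩ := hS n hn
  have h7 : (F.map φ).eval (n : ZMod r) = (w : ZMod r) ^ z := by
    have e1 : ((F.eval n : ℤ) : ZMod r) = (F.map φ).eval ((n : ZMod r)) := by
      rw [hφ, eval_intCast_map]; simp
    rw [← e1, ← h6, Int.cast_pow]
  rw [hS₁, mem_biUnion]
  refine ⟨(n : ZMod r), mem_univ _, ?_⟩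
  rw [mem_biUnion]
  refine ⟨(w : ZMod r), ?_, ?_⟩
  · rw [mem_erase, Multiset.mem_toFinset, mem_nthRoots (by omega)]
    refine ⟨fun h => h5 ((ZMod.intCast_zmod_eq_zero_iff_dvd _ _).mp h), h7.symm⟩
  · simp only [hcls, mem_filter]
    exact ⟨hn, trivial, w, h4, rfl, h6⟩

/-- a nonzero integer is prime to one of many primes -/
theorem exists_not_dvd {𝒬 : Finset ℕ} {X W : ℕ} (h𝒬 : ∀ r ∈ 𝒬, r.Prime ∧ X ≤ r)
    (hW : W < X ^ 𝒬.card) {w : ℤ} (hw : w ≠ 0) (hwW : |w| ≤ W) : ∃ r ∈ 𝒬, ¬ (r : ℤ) ∣ w := by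
  by_contra hcon
  push Not at hcon
  have h1 : ∏ r ∈ 𝒬, r ∣ w.natAbs := by
    apply Finset.prod_primes_dvd
    · intro r hr; exact (h𝒬 r hr).1.prime
    · intro r hr; exact Int.natCast_dvd.mp (hcon r hr)
  have h2 : ∏ r ∈ 𝒬, r ≤ w.natAbs := Nat.le_of_dvd (Int.natAbs_pos.mpr hw) h1
  have h3 : X ^ 𝒬.card ≤ ∏ r ∈ 𝒬, r := by
    rw [← prod_const]
    exact prod_le_prod (fun _ _ => Nat.zero_le _) fun r hr => (h𝒬 r hr).2
  have h4 : w.natAbs ≤ W := by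
    rw [Int.abs_eq_natAbs] at hwW
    exact_mod_cast hwW
  omega

/-- **the count with several primes** -/
theorem primes_count {F : ℤ[X]} {a R N W z D X X₁ : ℕ} (hz : 1 ≤ z) (hR : 1 ≤ R)
    (hF : NoFac F z R) (hD : F.natDegree ≤ D) (hN : 1 ≤ N) (hW : 1 ≤ W) {𝒬 : Finset ℕ}
    (h𝒬 : ∀ r ∈ 𝒬, r.Prime ∧ X ≤ r ∧ r ≤ X₁) (hzX : z < X) (hWX : W < X ^ 𝒬.card)
    (hbig : N ^ a * W ^ (R - 1) * (R * (a + 1)) ^ 2 < X ^ (R * (a + 1) - 1))
    (S : Finset ℤ) (hS : ∀ n ∈ S, |n| ≤ N ∧ ∃ w : ℤ, w ≠ 0 ∧ |w| ≤ W ∧ w ^ z = F.eval n) :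
    S.card ≤ 𝒬.card * (X₁ * (z * (z * a + R * D))) := by
  classical
  set T : ℕ → Finset ℤ := fun r => S.filter (fun n : ℤ => ∃ w : ℤ, |w| ≤ W ∧ ¬ (r : ℤ) ∣ w ∧
    w ^ z = F.eval n) with hT
  have hsub : S ⊆ 𝒬.biUnion T := by
    intro n hn
    obtain ⟨h1, w, h2, h3, h4⟩ := hS n hn
    obtain ⟨r, hr, hrw⟩ := exists_not_dvd (fun r hr => ⟨(h𝒬 r hr).1, (h𝒬 r hr).2.1⟩) hWX h2 h3
    rw [mem_biUnion]
    refine ⟨r, hr, ?_⟩
    simp only [hT, mem_filter]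
    exact ⟨hn, w, h3, hrw, h4⟩
  refine (card_le_card hsub).trans (card_biUnion_le_card_mul _ _ _ ?_)
  intro r hr
  obtain ⟨h1, h2, h3⟩ := h𝒬 r hr
  have hrz : ¬ r ∣ z := fun h => by
    have := Nat.le_of_dvd (by omega) h
    omega
  refine (prime_count h1 hz hrz hR hF hD hN hW (lt_of_lt_of_le hbig (Nat.pow_le_pow_left h2 _)) (T r)
    ?_).trans (Nat.mul_le_mul_right _ h3)
  intro n hn
  simp only [hT, mem_filter] at hn
  exact ⟨(hS n hn.1).1, hn.2⟩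

end Pool.Agent.N741.PB
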