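import Mathlib

/-!
Parameters: many primes in `[N ^ α, N ^ β]`, and small powers of `N`.
-/

set_option autoImplicit false

namespace Pool.Agent.N741.PB

open Finset Filter Topology

theorem pi_rpow (ε : ℝ) (hε : 0 < ε) : ∃ L : ℕ, ∀ n : ℕ, L ≤ n →
    (n : ℝ) ^ (1 - ε) ≤ (Nat.primeCounting n : ℝ) := by
  have h1 : ∀ᶠ x : ℝ in atTop, Real.log x ≤ x ^ ε / 4 := by
    have := (isLittleO_log_rpow_atTop hε).bound (show (0 : ℝ) < 1 / 4 by norm_num)
    filter_upwards [this, eventually_ge_atTop 1] with x hx hx1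
    rw [Real.norm_of_nonneg (Real.log_nonneg hx1), Real.norm_of_nonneg (by positivity)] at hx
    linarith
  have h2 : ∀ᶠ x : ℝ in atTop, Real.log x ≤ x / 16 := by
    have := (Real.isLittleO_log_id_atTop).bound (show (0 : ℝ) < 1 / 16 by norm_num)
    filter_upwards [this, eventually_ge_atTop 1] with x hx hx1
    rw [Real.norm_of_nonneg (Real.log_nonneg hx1)] at hx
    simp only [id_eq] at hx
    rw [Real.norm_of_nonneg (by linarith)] at hx
    linarith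
  obtain ⟨L₁, hL₁⟩ := eventually_atTop.mp (tendsto_natCast_atTop_atTop.eventually h1)
  obtain ⟨L₂, hL₂⟩ := eventually_atTop.mp (tendsto_natCast_atTop_atTop.eventually h2)
  refine ⟨L₁ + L₂ + 3, fun n hn => ?_⟩
  have hn3 : (3 : ℝ) ≤ n := by
    have : 3 ≤ n := by omega
    exact_mod_cast this
  have h3 := hL₁ n (by omega)
  have h4 := hL₂ (n + 1) (by omega)
  push_cast at h4
  have h5 := Chebyshev.pi_ge n
  have hlog : 0 < Real.log n := Real.log_pos (by linarith)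
  have hlog2 := Real.log_two_gt_d9
  have h6 : (n : ℝ) / 4 ≤ n * Real.log 2 - Real.log (n + 1) := by nlinarith
  have hn0 : (0 : ℝ) < n := by linarith
  have h7 : (n : ℝ) ^ (1 - ε) ≤ (n / 4) / Real.log n := by
    rw [le_div_iff₀ hlog]
    calc (n : ℝ) ^ (1 - ε) * Real.log n ≤ (n : ℝ) ^ (1 - ε) * ((n : ℝ) ^ ε / 4) := by gcongr
      _ = n / 4 := by
        rw [mul_div_assoc', ← Real.rpow_add hn0]
        norm_num
  calc (n : ℝ) ^ (1 - ε) ≤ (n / 4) / Real.log n := h7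
    _ ≤ (n * Real.log 2 - Real.log (n + 1)) / Real.log n := by gcongr
    _ ≤ _ := h5

/-- primes in an interval -/
theorem primes_in {X X₁ K : ℕ} (h : X + K ≤ Nat.primeCounting X₁) : ∃ 𝒬 : Finset ℕ,
    𝒬.card = K ∧ ∀ r ∈ 𝒬, r.Prime ∧ X ≤ r ∧ r ≤ X₁ := by
  classical
  set A := (range (X₁ + 1)).filter Nat.Prime with hA
  have hAc : A.card = Nat.primeCounting X₁ := by
    rw [hA, Nat.primeCounting, Nat.primeCounting', Nat.count_eq_card_filter_range]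
  set A' := A.filter (fun r => X ≤ r) with hA'
  have h1 : A.card ≤ A'.card + X := by
    have h2 : A ⊆ A' ∪ range X := by
      intro r hr
      rw [mem_union, hA', mem_filter, mem_range]
      by_cases h3 : X ≤ r
      · exact Or.inl ⟨hr, h3⟩
      · exact Or.inr (by omega)
    have := (card_le_card h2).trans (card_union_le _ _)
    rwa [card_range] at this
  obtain ⟨𝒬, h𝒬, hc⟩ := Finset.exists_subset_card_eq (s := A') (n := K) (by omega)
  refine ⟨𝒬, hc, fun r hr => ?_⟩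
  have h3 := h𝒬 hr
  rw [hA', mem_filter, hA, mem_filter, mem_range] at h3
  exact ⟨h3.1.2, h3.2, by omega⟩

theorem ev_rpow {e : ℝ} (he : 0 < e) (M : ℝ) : ∃ L : ℕ, ∀ N : ℕ, L ≤ N → M ≤ (N : ℝ) ^ e := by
  have ht : Tendsto (fun N : ℕ => (N : ℝ) ^ e) atTop atTop :=
    (tendsto_rpow_atTop he).comp tendsto_natCast_atTop_atTop
  exact eventually_atTop.mp (ht.eventually_ge_atTop M)

/-- the condition of the determinant method -/
theorem hbig_of {R S N X : ℕ} {y : ℝ} (hR : 2 ≤ R) (hN : 1 ≤ N) (hy : 8 * (R : ℝ) ^ 2 ≤ y)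
    (hX : (N : ℝ) ^ (1 / (R : ℝ)) * y ≤ X) :
    N ^ S * (2 ^ S) ^ (R - 1) * (R * (S + 1)) ^ 2 < X ^ (R * (S + 1) - 1) := by
  obtain ⟨m, rfl⟩ := Nat.exists_eq_add_of_le' hR
  set E := (m + 2) * (S + 1) - 1 with hE
  have hE1 : E = (m + 1) * (S + 1) + S := by
    rw [hE]
    have : (m + 2) * (S + 1) = (m + 1) * (S + 1) + S + 1 := by ring
    omega
  have hN1 : (1 : ℝ) ≤ N := by exact_mod_cast hN
  have hN0 : (0 : ℝ) < N := by linarith
  set ρ : ℝ := (N : ℝ) ^ (1 / ((m + 2 : ℕ) : ℝ)) with hρ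
  have hρ1 : 1 ≤ ρ := Real.one_le_rpow hN1 (by positivity)
  have hρR : ρ ^ (m + 2) = N := by
    rw [hρ, ← Real.rpow_natCast, ← Real.rpow_mul hN0.le]
    rw [one_div, inv_mul_cancel₀ (by positivity), Real.rpow_one]
  have hy8 : (8 : ℝ) ≤ y := by
    refine le_trans ?_ hy
    push_cast
    nlinarith [(Nat.cast_nonneg m : (0 : ℝ) ≤ m)]
  have hyE : ρ ^ E * y ^ E ≤ (X : ℝ) ^ E := by
    rw [← mul_pow]
    exact pow_le_pow_left₀ (by positivity) hX E
  -- the power of `ρ`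
  have h1 : (N : ℝ) ^ S ≤ ρ ^ E := by
    rw [← hρR, ← pow_mul]
    apply pow_le_pow_right₀ hρ1
    rw [hE1]
    nlinarith
  -- the power of `y`
  have h2 : ((2 : ℝ) ^ S) ^ (m + 1) * ((((m + 2 : ℕ) : ℝ)) * (S + 1)) ^ 2 < y ^ E := by
    set R' : ℝ := ((m + 2 : ℕ) : ℝ) with hR'
    have hR'2 : (2 : ℝ) ≤ R' := by rw [hR']; push_cast; linarith [(Nat.cast_nonneg m : (0 : ℝ) ≤ m)]
    have e1 : (8 * R' ^ 2) ^ ((m + 1) * (S + 1)) ≤ y ^ E := by
      calc (8 * R' ^ 2) ^ ((m + 1) * (S + 1)) ≤ y ^ ((m + 1) * (S + 1)) :=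
            pow_le_pow_left₀ (by positivity) hy _
        _ ≤ y ^ E := by
            apply pow_le_pow_right₀ (by linarith)
            omega
    refine lt_of_lt_of_le ?_ e1
    have e2 : (8 * R' ^ 2) ^ ((m + 1) * (S + 1)) =
        (2 : ℝ) ^ ((m + 1) * (S + 1)) * (4 * R' ^ 2) ^ ((m + 1) * (S + 1)) := by
      rw [← mul_pow]; ring_nf
    rw [e2]
    have e3 : ((2 : ℝ) ^ S) ^ (m + 1) ≤ (2 : ℝ) ^ ((m + 1) * (S + 1)) := by
      rw [← pow_mul]
      apply pow_le_pow_right₀ (by norm_num)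
      nlinarith
    have e4 : (4 * R' ^ 2) ^ (S + 1) ≤ (4 * R' ^ 2) ^ ((m + 1) * (S + 1)) := by
      apply pow_le_pow_right₀ (by nlinarith)
      nlinarith
    have e5 : (R' * (S + 1)) ^ 2 < (4 * R' ^ 2) ^ (S + 1) := by
      have e6 : (4 * R' ^ 2) ^ (S + 1) = (2 ^ (S + 1)) ^ 2 * (R' ^ (S + 1)) ^ 2 := by
        rw [← mul_pow, ← mul_pow, ← pow_mul, mul_comm (S + 1) 2, pow_mul]
        ring_nf
      rw [e6, mul_pow, mul_comm]
      have e7 : ((S : ℝ) + 1) < 2 ^ (S + 1) := by exact_mod_cast Nat.lt_two_pow_self (n := S + 1)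
      have e8 : R' ≤ R' ^ (S + 1) := le_self_pow₀ (by linarith) (by omega)
      have e9 : ((S : ℝ) + 1) ^ 2 < (2 ^ (S + 1)) ^ 2 := by
        apply pow_lt_pow_left₀ e7 (by positivity) (by norm_num)
      have e10 : R' ^ 2 ≤ (R' ^ (S + 1)) ^ 2 := pow_le_pow_left₀ (by linarith) e8 2
      calc ((S : ℝ) + 1) ^ 2 * R' ^ 2 < (2 ^ (S + 1)) ^ 2 * R' ^ 2 := by
            apply mul_lt_mul_of_pos_right e9; positivity
        _ ≤ _ := by gcongr
    calc ((2 : ℝ) ^ S) ^ (m + 1) * (R' * (S + 1)) ^ 2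
        ≤ (2 : ℝ) ^ ((m + 1) * (S + 1)) * (R' * (S + 1)) ^ 2 := by gcongr
      _ < (2 : ℝ) ^ ((m + 1) * (S + 1)) * (4 * R' ^ 2) ^ (S + 1) := by
          apply mul_lt_mul_of_pos_left e5; positivity
      _ ≤ _ := by gcongr
  have h3 : (N : ℝ) ^ S * (((2 : ℝ) ^ S) ^ (m + 1) * ((((m + 2 : ℕ) : ℝ)) * (S + 1)) ^ 2) <
      (X : ℝ) ^ E := by
    calc (N : ℝ) ^ S * (((2 : ℝ) ^ S) ^ (m + 1) * ((((m + 2 : ℕ) : ℝ)) * (S + 1)) ^ 2)
        < (N : ℝ) ^ S * y ^ E := by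
          apply mul_lt_mul_of_pos_left h2; positivity
      _ ≤ ρ ^ E * y ^ E := by gcongr
      _ ≤ _ := hyE
  have h4 : (((N ^ S * (2 ^ S) ^ (m + 2 - 1) * ((m + 2) * (S + 1)) ^ 2 : ℕ)) : ℝ) <
      ((X ^ E : ℕ) : ℝ) := by
    push_cast at h3 ⊢
    rw [mul_assoc]
    exact h3
  exact_mod_cast h4

end Pool.Agent.N741.PB
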