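import Mathlib
import Pool.Agent.R477.FC.Exp

/-!
Bounds for the exponents of the Fermat-Catalan equation between integers.
-/

set_option autoImplicit false

namespace Pool.Agent.N741.PB

/-- `a ^ l + s b ^ m = t c ^ k` with coprime nonzero integers `a`, `b`, signs `s`, `t` and
`1/l + 1/m + 1/k ≤ 1` -/
structure ISol (a b c : ℤ) (l m k : ℕ) (s t : ℤ) : Prop where
  a0 : a ≠ 0
  b0 : b ≠ 0
  c0 : c ≠ 0
  ab : IsCoprime a b
  l0 : 0 < l
  m0 : 0 < m
  k0 : 0 < k
  le : m * k + k * l + l * m ≤ l * m * k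
  s1 : s = 1 ∨ s = -1
  t1 : t = 1 ∨ t = -1
  eq : a ^ l + s * b ^ m = t * c ^ k

theorem two_le_of {l m k : ℕ} (hl : 0 < l) (hm : 0 < m) (hk : 0 < k)
    (h : m * k + k * l + l * m ≤ l * m * k) : 2 ≤ l ∧ 2 ≤ m ∧ 2 ≤ k := by
  refine ⟨?_, ?_, ?_⟩
  · by_contra hcon
    have : l = 1 := by omega
    subst this
    have := Nat.mul_pos hm hk
    simp only [mul_one, one_mul] at h
    omega
  · by_contra hcon
    have : m = 1 := by omega
    subst this
    have := Nat.mul_pos hl hk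
    have e : k * l = l * k := mul_comm _ _
    simp only [mul_one, one_mul] at h
    omega
  · by_contra hcon
    have : k = 1 := by omega
    subst this
    have := Nat.mul_pos hl hm
    simp only [mul_one, one_mul] at h
    omega

theorem ISol.ac {a b c : ℤ} {l m k : ℕ} {s t : ℤ} (h : ISol a b c l m k s t) : IsCoprime a c := by
  obtain ⟨-, -, -, hcop, hl, hm, hk, -, hs, ht, heq⟩ := h
  have h1 : IsCoprime a (b ^ m) := hcop.pow_right
  have h2 : IsCoprime a (c ^ k) := by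
    have h3 : c ^ k = (t * s) * b ^ m + a * (t * a ^ (l - 1)) := by
      have ht2 : t * t = 1 := by rcases ht with rfl | rfl <;> norm_num
      have h4 : a ^ l = a * a ^ (l - 1) := by rw [← pow_succ', Nat.sub_add_cancel hl]
      have h5 : c ^ k = t * (a ^ l + s * b ^ m) := by rw [heq]; linear_combination (-c ^ k) * ht2
      rw [h5, h4]; ring
    rw [h3]
    refine IsCoprime.add_mul_left_right ?_ _
    apply IsCoprime.mul_right _ h1
    rcases hs with rfl | rfl <;> rcases ht with rfl | rfl <;>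
      simp [isCoprime_one_right, IsCoprime.neg_right_iff]
  exact (IsCoprime.pow_right_iff hk).mp h2

theorem ISol.bc {a b c : ℤ} {l m k : ℕ} {s t : ℤ} (h : ISol a b c l m k s t) : IsCoprime b c := by
  obtain ⟨-, -, -, hcop, hl, hm, hk, -, hs, ht, heq⟩ := h
  have h1 : IsCoprime b (a ^ l) := hcop.symm.pow_right
  have h2 : IsCoprime b (c ^ k) := by
    have h3 : c ^ k = t * a ^ l + b * (t * s * b ^ (m - 1)) := by
      have ht2 : t * t = 1 := by rcases ht with rfl | rfl <;> norm_num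
      have h4 : b ^ m = b * b ^ (m - 1) := by rw [← pow_succ', Nat.sub_add_cancel hm]
      have h5 : c ^ k = t * (a ^ l + s * b ^ m) := by rw [heq]; linear_combination (-c ^ k) * ht2
      rw [h5, h4]; ring
    rw [h3]
    refine IsCoprime.add_mul_left_right ?_ _
    apply IsCoprime.mul_right _ h1
    rcases ht with rfl | rfl <;> simp [isCoprime_one_right, IsCoprime.neg_right_iff]
  exact (IsCoprime.pow_right_iff hk).mp h2

theorem sign_pow (x : ℤ) (l : ℕ) : ∃ σ : ℤ, (σ = 1 ∨ σ = -1) ∧ x ^ l = σ * (x.natAbs : ℤ) ^ l := by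
  rcases Int.natAbs_eq x with h | h
  · exact ⟨1, Or.inl rfl, by rw [one_mul, ← h]⟩
  · rcases neg_one_pow_eq_or ℤ l with h1 | h1
    · exact ⟨1, Or.inl rfl, by
        conv_lhs => rw [h]
        rw [neg_pow, h1]⟩
    · exact ⟨-1, Or.inr rfl, by
        conv_lhs => rw [h]
        rw [neg_pow, h1]⟩

/-- the exponents of the bases different from `± 1` are at most a power of the logarithm -/
theorem exps_int : ∃ C κ : ℕ, ∀ S : ℕ, 2 ≤ S → ∀ (a b c : ℤ) (l m k : ℕ) (s t : ℤ),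
    ISol a b c l m k s t → a.natAbs ≤ 2 ^ S → b.natAbs ≤ 2 ^ S → c.natAbs ≤ 2 ^ S →
    (2 ≤ a.natAbs → l ≤ C * S ^ κ) ∧ (2 ≤ b.natAbs → m ≤ C * S ^ κ) ∧
      (2 ≤ c.natAbs → k ≤ C * S ^ κ) := by
  obtain ⟨C, κ, hC⟩ := Pool.Agent.R477.FC.exps
  refine ⟨C, κ, fun S hS a b c l m k s t h ha hb hc => ?_⟩
  obtain ⟨σ₁, hσ₁, e1⟩ := sign_pow a l
  obtain ⟨σ₂, hσ₂, e2⟩ := sign_pow b m
  obtain ⟨σ₃, hσ₃, e3⟩ := sign_pow c k
  have hnc : ∀ {x y : ℤ}, IsCoprime x y → Nat.Coprime x.natAbs y.natAbs := fun h =>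
    Int.isCoprime_iff_gcd_eq_one.mp h
  obtain ⟨hl2, hm2, hk2⟩ := two_le_of h.l0 h.m0 h.k0 h.le
  refine hC S hS a.natAbs b.natAbs c.natAbs l m k σ₁ (s * σ₂) (-(t * σ₃)) ⟨Int.natAbs_pos.mpr h.a0,
    Int.natAbs_pos.mpr h.b0, Int.natAbs_pos.mpr h.c0, hnc h.ab, hnc h.ac, hnc h.bc, hl2, hm2, hk2,
    hσ₁, ?_, ?_, ?_⟩ ha hb hc
  · rcases h.s1 with h1 | h1 <;> rcases hσ₂ with h2 | h2 <;> rw [h1, h2] <;>
      simp [Pool.Agent.R477.FC.Sg]
  · rcases h.t1 with h1 | h1 <;> rcases hσ₃ with h2 | h2 <;> rw [h1, h2] <;>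
      simp [Pool.Agent.R477.FC.Sg]
  · have := h.eq
    rw [e1, e2, e3] at this
    linear_combination this

theorem third_exp {l m k k' : ℕ} (hl : 0 < l) (hm : 0 < m)
    (h : m * k + k * l + l * m ≤ l * m * k) (hk' : 6 ≤ k') : m * k' + k' * l + l * m ≤ l * m * k' := by
  have h1 : l + m < l * m := by
    by_contra hcon
    push Not at hcon
    have h2 : l * m * k ≤ (l + m) * k := Nat.mul_le_mul_right _ hcon
    have h3 : 0 < l * m := Nat.mul_pos hl hm
    nlinarith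
  have hl2 : 2 ≤ l := by
    rcases Nat.lt_or_ge l 2 with h2 | h2
    · have : l = 1 := by omega
      subst this; omega
    · exact h2
  have hm2 : 2 ≤ m := by
    rcases Nat.lt_or_ge m 2 with h2 | h2
    · have : m = 1 := by omega
      subst this; omega
    · exact h2
  have h5 : 6 * (l + m) ≤ 5 * (l * m) := by
    rcases Nat.lt_or_ge l 3 with h2 | h2
    · have : l = 2 := by omega
      subst this
      omega
    · rcases Nat.lt_or_ge m 3 with h3 | h3
      · have : m = 2 := by omega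
        subst this
        omega
      · nlinarith
  obtain ⟨j, rfl⟩ := Nat.exists_eq_add_of_le hk'
  nlinarith

theorem unit_pow {x : ℤ} (hx : x.natAbs = 1) (l : ℕ) : x ^ (6 + l % 2) = x ^ l := by
  have h4 : x = 1 ∨ x = -1 := Int.natAbs_eq_iff.mp hx
  rcases h4 with h4 | h4
  · rw [h4, one_pow, one_pow]
  · rw [h4]
    have h5 : l % 2 = 0 ∨ l % 2 = 1 := by omega
    rcases h5 with h5 | h5
    · have h6 : Even l := Nat.even_iff.mpr h5
      rw [h5, h6.neg_one_pow]; norm_num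
    · have h6 : Odd l := Nat.odd_iff.mpr h5
      rw [h5, h6.neg_one_pow]; norm_num

/-- the exponent of the first base may be replaced by a small one -/
theorem ISol.red1 {a b c : ℤ} {l m k : ℕ} {s t : ℤ} (h : ISol a b c l m k s t) {B : ℕ}
    (hB : 2 ≤ a.natAbs → l ≤ B) : ∃ l', l' ≤ B + 7 ∧ a ^ l' = a ^ l ∧ ISol a b c l' m k s t := by
  rcases Nat.lt_or_ge a.natAbs 2 with h1 | h1
  · have h2 : a.natAbs = 1 := by
      have := Int.natAbs_pos.mpr h.a0
      omega
    have h3 := unit_pow h2 l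
    refine ⟨6 + l % 2, by omega, h3, h.a0, h.b0, h.c0, h.ab, by omega, h.m0, h.k0, ?_, h.s1, h.t1, ?_⟩
    · have := third_exp (k' := 6 + l % 2) h.m0 h.k0 (by have := h.le; nlinarith : k * l + l * m + m * k ≤ m * k * l)
        (by omega)
      nlinarith
    · rw [h3]; exact h.eq
  · exact ⟨l, (hB h1).trans (Nat.le_add_right _ _), rfl, h⟩

theorem ISol.red2 {a b c : ℤ} {l m k : ℕ} {s t : ℤ} (h : ISol a b c l m k s t) {B : ℕ}
    (hB : 2 ≤ b.natAbs → m ≤ B) : ∃ m', m' ≤ B + 7 ∧ b ^ m' = b ^ m ∧ ISol a b c l m' k s t := by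
  rcases Nat.lt_or_ge b.natAbs 2 with h1 | h1
  · have h2 : b.natAbs = 1 := by
      have := Int.natAbs_pos.mpr h.b0
      omega
    have h3 := unit_pow h2 m
    refine ⟨6 + m % 2, by omega, h3, h.a0, h.b0, h.c0, h.ab, h.l0, by omega, h.k0, ?_, h.s1, h.t1, ?_⟩
    · have := third_exp (k' := 6 + m % 2) h.k0 h.l0 (by have := h.le; nlinarith : l * m + m * k + k * l ≤ k * l * m)
        (by omega)
      nlinarith
    · rw [h3]; exact h.eq
  · exact ⟨m, (hB h1).trans (Nat.le_add_right _ _), rfl, h⟩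

theorem ISol.red3 {a b c : ℤ} {l m k : ℕ} {s t : ℤ} (h : ISol a b c l m k s t) {B : ℕ}
    (hB : 2 ≤ c.natAbs → k ≤ B) : ∃ k', k' ≤ B + 7 ∧ c ^ k' = c ^ k ∧ ISol a b c l m k' s t := by
  rcases Nat.lt_or_ge c.natAbs 2 with h1 | h1
  · have h2 : c.natAbs = 1 := by
      have := Int.natAbs_pos.mpr h.c0
      omega
    have h3 := unit_pow h2 k
    refine ⟨6 + k % 2, by omega, h3, h.a0, h.b0, h.c0, h.ab, h.l0, h.m0, by omega, ?_, h.s1, h.t1, ?_⟩
    · exact third_exp (k' := 6 + k % 2) h.l0 h.m0 h.le (by omega)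
    · rw [h3]; exact h.eq
  · exact ⟨k, (hB h1).trans (Nat.le_add_right _ _), rfl, h⟩

/-- the exponent of the third base may be replaced by a small one without small prime factors -/
theorem ISol.red4 {a b c : ℤ} {l m k : ℕ} {s t : ℤ} (h : ISol a b c l m k s t) {B R P : ℕ}
    (hP : P.Prime) (hP7 : 7 ≤ P) (hPR : R ≤ P) (hk : ∀ p : ℕ, p.Prime → p ∣ k → R ≤ p)
    (hB : 2 ≤ c.natAbs → k ≤ B) : ∃ (k' : ℕ) (c' : ℤ), k' ≤ B + P ∧ c'.natAbs ≤ c.natAbs ∧
      c' ^ k' = c ^ k ∧ (∀ p : ℕ, p.Prime → p ∣ k' → R ≤ p) ∧ ISol a b c' l m k' s t := by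
  rcases Nat.lt_or_ge c.natAbs 2 with h1 | h1
  · have h2 : c.natAbs = 1 := by
      have := Int.natAbs_pos.mpr h.c0
      omega
    have h4 : c = 1 ∨ c = -1 := Int.natAbs_eq_iff.mp h2
    have hodd : Odd P := hP.odd_of_ne_two (by omega)
    have h5 : c ^ k = 1 ∨ c ^ k = -1 := by
      rcases h4 with h4 | h4
      · rw [h4, one_pow]; exact Or.inl rfl
      · rw [h4]; exact neg_one_pow_eq_or ℤ k
    have h6 : (c ^ k) ^ P = c ^ k := by
      rcases h5 with h5 | h5
      · rw [h5, one_pow]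
      · rw [h5, hodd.neg_one_pow]
    refine ⟨P, c ^ k, by omega, ?_, h6, ?_, h.a0, h.b0, ?_, h.ab, h.l0, h.m0, hP.pos, ?_, h.s1, h.t1, ?_⟩
    · rcases h5 with h5 | h5 <;> rw [h5, h2] <;> simp
    · intro p hp hpP
      rw [(Nat.prime_dvd_prime_iff_eq hp hP).mp hpP]; exact hPR
    · rcases h5 with h5 | h5 <;> rw [h5] <;> norm_num
    · exact third_exp h.l0 h.m0 h.le (by omega)
    · rw [h6]; exact h.eq
  · exact ⟨k, c, (hB h1).trans (Nat.le_add_right _ _), le_rfl, rfl, hk, h⟩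

end Pool.Agent.N741.PB
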