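import Mathlib
import Pool.Agent.N741.PB.Cls
import Pool.Agent.N741.PB.Fac
import Pool.Agent.N741.PB.Expo

/-!
Two bases given by polynomials in one variable.
-/

set_option autoImplicit false

namespace Pool.Agent.N741.PB

open Finset Polynomial

/-- Gauss' lemma: polynomials which are not coprime over `ℚ` have a common factor over `ℤ` -/
theorem common_factor {f g : ℤ[X]} (hf : f ≠ 0)
    (h : ¬ IsCoprime (f.map (Int.castRingHom ℚ)) (g.map (Int.castRingHom ℚ))) :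
    ∃ q : ℤ[X], 0 < q.natDegree ∧ q ∣ f ∧ q ∣ g := by
  classical
  have hinj : Function.Injective (Int.castRingHom ℚ) := (Int.castRingHom ℚ).injective_int
  have hfm : f.map (Int.castRingHom ℚ) ≠ 0 := (Polynomial.map_ne_zero_iff hinj).mpr hf
  set d := EuclideanDomain.gcd (f.map (Int.castRingHom ℚ)) (g.map (Int.castRingHom ℚ)) with hd
  have hdf : d ∣ f.map (Int.castRingHom ℚ) := EuclideanDomain.gcd_dvd_left _ _
  have hdg : d ∣ g.map (Int.castRingHom ℚ) := EuclideanDomain.gcd_dvd_right _ _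
  have hd0 : d ≠ 0 := fun h0 => hfm (by rw [h0, zero_dvd_iff] at hdf; exact hdf)
  have hdu : ¬ IsUnit d := by rw [hd, EuclideanDomain.gcd_isUnit_iff]; exact h
  have hdeg : 0 < d.natDegree := by
    by_contra hcon
    apply hdu
    rw [Polynomial.isUnit_iff_degree_eq_zero, degree_eq_natDegree hd0,
      Nat.eq_zero_of_not_pos hcon]; rfl
  obtain ⟨c, hcm, hc⟩ := IsLocalization.integerNormalization_spec (nonZeroDivisors ℤ) d
  set q₀ := IsLocalization.integerNormalization (nonZeroDivisors ℤ) d with hq₀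
  have e : (algebraMap ℤ ℚ) = Int.castRingHom ℚ := rfl
  rw [e] at hc
  have hc0 : c ≠ 0 := nonZeroDivisors.ne_zero hcm
  have hmap : q₀.map (Int.castRingHom ℚ) = C (c : ℚ) * d := by
    rw [hc, zsmul_eq_mul]
    simp
  have hcu : IsUnit (C (c : ℚ) : ℚ[X]) := isUnit_C.mpr (isUnit_iff_ne_zero.mpr (by exact_mod_cast hc0))
  have hq₀0 : q₀ ≠ 0 := by
    intro h0
    rw [h0, Polynomial.map_zero] at hmap
    exact mul_ne_zero hcu.ne_zero hd0 hmap.symm
  have hdeg₀ : q₀.natDegree = d.natDegree := by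
    rw [← natDegree_map_eq_of_injective hinj q₀, hmap, natDegree_C_mul (by exact_mod_cast hc0)]
  set q := q₀.primPart with hq
  have hqp : q.IsPrimitive := q₀.isPrimitive_primPart
  have hqd : q.map (Int.castRingHom ℚ) ∣ d := by
    have h1 : q.map (Int.castRingHom ℚ) ∣ q₀.map (Int.castRingHom ℚ) := by
      apply Polynomial.map_dvd
      rw [q₀.eq_C_content_mul_primPart]
      exact dvd_mul_left _ _
    rw [hmap] at h1
    exact (hcu.dvd_mul_left).mp h1
  have key : ∀ F : ℤ[X], d ∣ F.map (Int.castRingHom ℚ) → q ∣ F := fun F hF =>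
    hqp.dvd_of_fraction_map_dvd_fraction_map (K := ℚ) (hqd.trans hF)
  refine ⟨q, ?_, key f hdf, key g hdg⟩
  rw [hq, natDegree_primPart, hdeg₀]
  exact hdeg

/-- two bases of a solution with third base at most `W`, the exponent of which has no prime factor
smaller than `R` -/
def Pair (R : ℕ) (W : ℝ) (a b : ℤ) : Prop := ∃ (c : ℤ) (l m k : ℕ) (s t : ℤ),
  ISol a b c l m k s t ∧ (∀ p : ℕ, p.Prime → p ∣ k → R ≤ p) ∧ |(c : ℝ)| ≤ W

/-- the values where a common factor is a unit -/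
theorem unit_values {f g : ℤ[X]} (hf : f ≠ 0)
    (h : ¬ IsCoprime (f.map (Int.castRingHom ℚ)) (g.map (Int.castRingHom ℚ))) (S : Finset ℤ)
    (hS : ∀ n ∈ S, IsCoprime (f.eval n) (g.eval n)) : S.card ≤ 2 * f.natDegree := by
  classical
  obtain ⟨q, hq, hqf, hqg⟩ := common_factor hf h
  have hqd : q.natDegree ≤ f.natDegree := natDegree_le_of_dvd hqf hf
  have h1 : ∀ c : ℤ, (S.filter (fun n => q.eval n = c)).card ≤ q.natDegree := by
    intro c
    have h2 : (q - C c).natDegree = q.natDegree := natDegree_sub_C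
    have h3 : q - C c ≠ 0 := by
      intro h
      rw [h, natDegree_zero] at h2
      omega
    rw [← h2]
    apply int_roots_card _ h3
    intro n hn
    rw [mem_filter] at hn
    rw [eval_sub, eval_C, hn.2, sub_self]
  have hsub : S ⊆ S.filter (fun n => q.eval n = 1) ∪ S.filter (fun n => q.eval n = -1) := by
    intro n hn
    have h2 : IsUnit (q.eval n) :=
      (hS n hn).isUnit_of_dvd' (eval_dvd hqf) (eval_dvd hqg)
    rw [Int.isUnit_iff] at h2
    rw [mem_union, mem_filter, mem_filter]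
    rcases h2 with h2 | h2
    · exact Or.inl ⟨hn, h2⟩
    · exact Or.inr ⟨hn, h2⟩
  have := (card_le_card hsub).trans (card_union_le _ _)
  have e1 := h1 1
  have e2 := h1 (-1)
  omega

/-- the index set of the equations with exponents at most `B` -/
def Idx (B R : ℕ) : Finset ((ℕ × ℕ × ℕ) × (ℤ × ℤ)) :=
  ((range (B + 1) ×ˢ range (B + 1) ×ˢ range (B + 1)).filter (fun e : ℕ × ℕ × ℕ =>
    0 < e.1 ∧ 0 < e.2.1 ∧ 0 < e.2.2 ∧ e.2.1 * e.2.2 + e.2.2 * e.1 + e.1 * e.2.1 ≤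
      e.1 * e.2.1 * e.2.2 ∧ ∀ p < R, p.Prime → ¬ p ∣ e.2.2)) ×ˢ
        (({1, -1} : Finset ℤ) ×ˢ ({1, -1} : Finset ℤ))

theorem idx_card (B R : ℕ) : (Idx B R).card ≤ (B + 1) ^ 3 * 4 := by
  unfold Idx
  rw [card_product]
  have h1 : (({1, -1} : Finset ℤ) ×ˢ ({1, -1} : Finset ℤ)).card = 4 := by decide
  rw [h1]
  apply Nat.mul_le_mul_right
  refine (card_filter_le _ _).trans ?_
  rw [card_product, card_product, card_range]
  apply le_of_eq; ring

theorem line_count {C κ : ℕ} (hC : ∀ S : ℕ, 2 ≤ S → ∀ (a b c : ℤ) (l m k : ℕ) (s t : ℤ),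
    ISol a b c l m k s t → a.natAbs ≤ 2 ^ S → b.natAbs ≤ 2 ^ S → c.natAbs ≤ 2 ^ S →
    (2 ≤ a.natAbs → l ≤ C * S ^ κ) ∧ (2 ≤ b.natAbs → m ≤ C * S ^ κ) ∧
      (2 ≤ c.natAbs → k ≤ C * S ^ κ)) {f g : ℤ[X]} (hfg : 0 < f.natDegree ∨ 0 < g.natDegree)
    {R P S N a D X X₁ B : ℕ} (hR : 1 ≤ R) (hP : P.Prime) (hP7 : 7 ≤ P) (hPR : R ≤ P) (hS : 2 ≤ S)
    (hN : 1 ≤ N) (hDf : f.natDegree ≤ D) (hDg : g.natDegree ≤ D)
    (hval : ∀ n : ℤ, |n| ≤ N → (f.eval n).natAbs ≤ 2 ^ S ∧ (g.eval n).natAbs ≤ 2 ^ S)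
    {𝒬 : Finset ℕ} (h𝒬 : ∀ r ∈ 𝒬, r.Prime ∧ X ≤ r ∧ r ≤ X₁) (hB : B = C * S ^ κ + P) (hBX : B < X)
    (hWX : 2 ^ S < X ^ 𝒬.card)
    (hbig : N ^ a * (2 ^ S) ^ (R - 1) * (R * (a + 1)) ^ 2 < X ^ (R * (a + 1) - 1))
    (T : Finset ℤ) (hT : ∀ n ∈ T, |n| ≤ N ∧ Pair R ((2 ^ S : ℕ) : ℝ) (f.eval n) (g.eval n)) :
    T.card ≤ 2 * D + (B + 1) ^ 3 * 4 * (𝒬.card * (X₁ * (B * (B * a + R * (B * D))))) := by
  classical
  rcases T.eq_empty_or_nonempty with hTe | ⟨n₀, hn₀⟩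
  · rw [hTe, card_empty]; exact Nat.zero_le _
  have hf0 : f ≠ 0 := by
    rintro rfl
    obtain ⟨-, c, l, m, k, s, t, h, -⟩ := hT n₀ hn₀
    exact h.a0 (by simp)
  have hg0 : g ≠ 0 := by
    rintro rfl
    obtain ⟨-, c, l, m, k, s, t, h, -⟩ := hT n₀ hn₀
    exact h.b0 (by simp)
  by_cases hcop : IsCoprime (f.map (Int.castRingHom ℚ)) (g.map (Int.castRingHom ℚ))
  swap
  · have h1 := unit_values hf0 hcop T (fun n hn => by
      obtain ⟨-, c, l, m, k, s, t, h, -⟩ := hT n hn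
      exact h.ab)
    have : T.card ≤ 2 * D := h1.trans (Nat.mul_le_mul_left _ hDf)
    exact this.trans (Nat.le_add_right _ _)
  set A : (ℕ × ℕ × ℕ) × (ℤ × ℤ) → Finset ℤ := fun e => T.filter (fun n : ℤ => ∃ w : ℤ, w ≠ 0 ∧
    |w| ≤ ((2 ^ S : ℕ) : ℤ) ∧ w ^ e.1.2.2 = (Lf f g e.1.1 e.1.2.1 e.2.1 e.2.2).eval n) with hA
  have hsub : T ⊆ (Idx B R).biUnion A := by
    intro n hn
    obtain ⟨hnN, c, l, m, k, s, t, h, hk, hcW⟩ := hT n hn
    obtain ⟨hv1, hv2⟩ := hval n hnN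
    have hcS : c.natAbs ≤ 2 ^ S := by
      have h6 : ((c.natAbs : ℕ) : ℝ) = |(c : ℝ)| := by
        rw [Nat.cast_natAbs, Int.cast_abs]
      rw [← h6] at hcW
      exact_mod_cast hcW
    obtain ⟨b1, b2, b3⟩ := hC S hS _ _ c l m k s t h hv1 hv2 hcS
    obtain ⟨l', hl', el, h'⟩ := h.red1 b1
    obtain ⟨m', hm', em, h''⟩ := h'.red2 b2
    obtain ⟨k', c', hk', hc', ek, hkR, h3⟩ := h''.red4 hP hP7 hPR hk b3
    rw [mem_biUnion]
    refine ⟨((l', m', k'), (s, t)), ?_, ?_⟩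
    · simp only [Idx, mem_product, mem_filter, mem_range, mem_insert, mem_singleton]
      refine ⟨⟨⟨by omega, by omega, by omega⟩, h3.l0, h3.m0, h3.k0, h3.le, ?_⟩, h3.s1, h3.t1⟩
      intro p hpR hp hpk
      have := hkR p hp hpk
      omega
    · simp only [hA, mem_filter]
      refine ⟨hn, c', h3.c0, ?_, ?_⟩
      · rw [Int.abs_eq_natAbs]
        exact_mod_cast hc'.trans hcS
      · simp only [Lf, eval_mul, eval_add, eval_C, eval_pow]
        rw [h3.eq]
        have ht2 : t * t = 1 := by rcases h3.t1 with rfl | rfl <;> norm_num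
        linear_combination (-(c' ^ k')) * ht2
  have hAc : ∀ e ∈ Idx B R, (A e).card ≤ 𝒬.card * (X₁ * (B * (B * a + R * (B * D)))) := by
    rintro ⟨⟨l, m, k⟩, s, t⟩ he
    simp only [Idx, mem_product, mem_filter, mem_range, mem_insert, mem_singleton] at he
    obtain ⟨⟨⟨h1, h2, h3⟩, h4, h5, h6, h7, h8⟩, hs, ht⟩ := he
    obtain ⟨hL0, hLp⟩ := lf_not_pow hf0 hg0 hfg hcop h4 h5 h6 h7 hs ht
    have hNF : NoFac (Lf f g l m s t) k R := fun Q hQ hQR =>
      no_small_factor (by omega) (fun p hp hpk => by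
        by_contra hcon
        exact h8 p (by omega) hp hpk) hLp Q hQ hQR
    have hkB : k ≤ B := by omega
    refine (primes_count (D := B * D) (by omega) hR hNF (lf_natDegree (by omega) (by omega) hDf hDg)
      hN Nat.one_le_two_pow h𝒬 (by omega) hWX hbig (A ((l, m, k), (s, t))) ?_).trans ?_
    · intro n hn
      simp only [hA, mem_filter] at hn
      exact ⟨(hT n hn.1).1, hn.2⟩
    · gcongr
  have h1 := card_biUnion_le_card_mul _ _ _ hAc
  have h2 := (card_le_card hsub).trans (h1.trans (Nat.mul_le_mul_right _ (idx_card B R)))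
  omega

end Pool.Agent.N741.PB
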