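import Mathlib

/-!
Counting integral points of a box by fixing all coordinates but one.
-/

set_option autoImplicit false

namespace Pool.Agent.N741.PB

open Finset MvPolynomial

theorem card_box (N : ℕ) : (Icc (-(N : ℤ)) N).card = 2 * N + 1 := by
  rw [Int.card_Icc]
  omega

/-- few zeros in a box -/
theorem zeros_box {s : ℕ} (L : MvPolynomial (Fin s) ℤ) (hL : L ≠ 0) {D N : ℕ}
    (hD : L.totalDegree ≤ D) (Z : Finset (Fin s → ℤ))
    (hZ : ∀ t ∈ Z, (∀ i, |t i| ≤ N) ∧ eval t L = 0) :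
    Z.card * (2 * N + 1) ≤ D * (2 * N + 1) ^ s := by
  classical
  set I := Icc (-(N : ℤ)) N with hI
  have hIc : I.card = 2 * N + 1 := card_box N
  have h1 := schwartz_zippel_totalDegree hL I
  have hsub : Z ⊆ (Fintype.piFinset fun _ : Fin s => I).filter (fun f => eval f L = 0) := by
    intro t ht
    obtain ⟨h2, h3⟩ := hZ t ht
    rw [mem_filter, Fintype.mem_piFinset]
    refine ⟨fun i => ?_, h3⟩
    rw [hI, mem_Icc]
    exact abs_le.mp (h2 i)
  have h2 := card_le_card hsub
  set z := ((Fintype.piFinset fun _ : Fin s => I).filter (fun f => eval f L = 0)).card with hz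
  have hIpos : (0 : ℚ) < (I.card : ℚ) := by rw [hIc]; positivity
  have h3 : (z : ℚ) / (I.card : ℚ) ^ s ≤ (L.totalDegree : ℚ) / I.card := by
    have := h1
    have h4 : (((z : ℚ≥0) / (I.card : ℚ≥0) ^ s : ℚ≥0) : ℚ) ≤
        (((L.totalDegree : ℚ≥0) / (I.card : ℚ≥0) : ℚ≥0) : ℚ) := by exact_mod_cast this
    push_cast at h4
    exact h4
  rw [div_le_div_iff₀ (by positivity) hIpos] at h3
  have h4 : z * I.card ≤ L.totalDegree * I.card ^ s := by exact_mod_cast h3
  rw [hIc] at h4
  calc Z.card * (2 * N + 1) ≤ z * (2 * N + 1) := Nat.mul_le_mul_right _ h2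
    _ ≤ L.totalDegree * (2 * N + 1) ^ s := h4
    _ ≤ _ := Nat.mul_le_mul_right _ hD

/-- the restriction of a polynomial to a line parallel to the first coordinate axis -/
noncomputable def lin {s : ℕ} (F : MvPolynomial (Fin (s + 1)) ℤ) (t' : Fin s → ℤ) : Polynomial ℤ :=
  (finSuccEquiv ℤ s F).map (eval t')

theorem lin_eval {s : ℕ} (F : MvPolynomial (Fin (s + 1)) ℤ) (t : Fin (s + 1) → ℤ) :
    (lin F (Fin.tail t)).eval (t 0) = eval t F := by
  unfold lin
  rw [← eval_eq_eval_mv_eval', Fin.cons_self_tail]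

theorem lin_eval' {s : ℕ} (F : MvPolynomial (Fin (s + 1)) ℤ) (t' : Fin s → ℤ) (n : ℤ) :
    (lin F t').eval n = eval (Fin.cons n t' : Fin (s + 1) → ℤ) F := by
  unfold lin
  rw [← eval_eq_eval_mv_eval']

theorem lin_natDegree {s : ℕ} (F : MvPolynomial (Fin (s + 1)) ℤ) (t' : Fin s → ℤ) :
    (lin F t').natDegree ≤ F.totalDegree := by
  unfold lin
  refine Polynomial.natDegree_map_le.trans ?_
  rw [natDegree_finSuccEquiv]
  exact degreeOf_le_totalDegree F 0

/-- **counting by lines** -/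
theorem fiber_count {s : ℕ} (H : MvPolynomial (Fin (s + 1)) ℤ) (hH : 0 < H.degreeOf 0) {D N : ℕ}
    (hD : H.totalDegree ≤ D) (M : ℝ) (hM : 0 ≤ M) (T : Finset (Fin (s + 1) → ℤ))
    (hT : ∀ t ∈ T, ∀ i, |t i| ≤ N)
    (hM' : ∀ t' : Fin s → ℤ, (∀ i, |t' i| ≤ N) → 0 < (lin H t').natDegree →
      ∀ T' : Finset ℤ, (∀ n ∈ T', (Fin.cons n t' : Fin (s + 1) → ℤ) ∈ T) → (T'.card : ℝ) ≤ M) :
    (T.card : ℝ) ≤ (2 * N + 1) ^ s * (M + D) := by
  classical
  set I := Icc (-(N : ℤ)) N with hI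
  have hIc : I.card = 2 * N + 1 := card_box N
  set Bx := Fintype.piFinset fun _ : Fin s => I with hBx
  have hBxc : Bx.card = (2 * N + 1) ^ s := by
    rw [hBx, Fintype.card_piFinset]
    simp [hIc]
  set P := finSuccEquiv ℤ s H with hP
  have hPd : 0 < P.natDegree := by rw [hP, natDegree_finSuccEquiv]; exact hH
  set L := P.leadingCoeff with hL
  have hP0 : P ≠ 0 := by
    intro h
    rw [h, Polynomial.natDegree_zero] at hPd
    omega
  have hL0 : L ≠ 0 := Polynomial.leadingCoeff_ne_zero.mpr hP0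
  have hLD : L.totalDegree ≤ D := by
    have := totalDegree_coeff_finSuccEquiv_add_le H P.natDegree hL0
    have h2 : L.totalDegree = ((finSuccEquiv ℤ s H).coeff P.natDegree).totalDegree := rfl
    omega
  set bad := Bx.filter (fun t' => eval t' L = 0) with hbad
  have hbadc : bad.card * (2 * N + 1) ≤ D * (2 * N + 1) ^ s := by
    apply zeros_box L hL0 hLD
    intro t' ht'
    rw [hbad, mem_filter, hBx, Fintype.mem_piFinset] at ht'
    refine ⟨fun i => ?_, ht'.2⟩
    have := ht'.1 i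
    rw [hI, mem_Icc] at this
    exact abs_le.mpr this
  set fib : (Fin s → ℤ) → Finset (Fin (s + 1) → ℤ) := fun t' => T.filter (fun t => Fin.tail t = t')
    with hfib
  have hfibc : ∀ t', ∃ T' : Finset ℤ, T'.card = (fib t').card ∧ T' ⊆ I ∧
      ∀ n ∈ T', (Fin.cons n t' : Fin (s + 1) → ℤ) ∈ T := by
    intro t'
    refine ⟨(fib t').image (fun t => t 0), ?_, ?_, ?_⟩
    · apply card_image_of_injOn
      intro t ht u hu h
      rw [mem_coe, hfib, mem_filter] at ht hu
      simp only at h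
      rw [← Fin.cons_self_tail t, ← Fin.cons_self_tail u, ht.2, hu.2, h]
    · intro n hn
      rw [mem_image] at hn
      obtain ⟨t, ht, rfl⟩ := hn
      rw [hfib, mem_filter] at ht
      rw [hI, mem_Icc]
      exact abs_le.mp (hT t ht.1 0)
    · intro n hn
      rw [mem_image] at hn
      obtain ⟨t, ht, rfl⟩ := hn
      rw [hfib, mem_filter] at ht
      rw [← ht.2, Fin.cons_self_tail]
      exact ht.1
  have hmem : ∀ t ∈ T, Fin.tail t ∈ Bx := by
    intro t ht
    rw [hBx, Fintype.mem_piFinset]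
    intro i
    rw [hI, mem_Icc]
    exact abs_le.mp (hT t ht i.succ)
  have hsum : T.card = ∑ t' ∈ Bx, (fib t').card := card_eq_sum_card_fiberwise hmem
  have hgood : ∀ t' ∈ Bx, t' ∉ bad → ((fib t').card : ℝ) ≤ M := by
    intro t' ht' hb
    obtain ⟨T', h1, -, h3⟩ := hfibc t'
    rw [← h1]
    apply hM' t' _ _ T' h3
    · intro i
      rw [hBx, Fintype.mem_piFinset] at ht'
      have := ht' i
      rw [hI, mem_Icc] at this
      exact abs_le.mpr this
    · have h4 : eval t' L ≠ 0 := fun h => hb (by rw [hbad, mem_filter]; exact ⟨ht', h⟩)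
      unfold lin
      rw [Polynomial.natDegree_map_of_leadingCoeff_ne_zero _ h4]
      exact hPd
  have hbad' : ∀ t', ((fib t').card : ℝ) ≤ 2 * N + 1 := by
    intro t'
    obtain ⟨T', h1, h2, -⟩ := hfibc t'
    rw [← h1]
    have := card_le_card h2
    rw [hIc] at this
    exact_mod_cast this
  have hle : ∀ t' ∈ Bx, ((fib t').card : ℝ) ≤ M + if t' ∈ bad then (2 * (N : ℝ) + 1) else 0 := by
    intro t' ht'
    split_ifs with h
    · exact (hbad' t').trans (by linarith)
    · rw [add_zero]; exact hgood t' ht' h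
  have hbad_sub : bad ⊆ Bx := filter_subset _ _
  calc (T.card : ℝ) = ∑ t' ∈ Bx, ((fib t').card : ℝ) := by rw [hsum]; push_cast; rfl
    _ ≤ ∑ t' ∈ Bx, (M + if t' ∈ bad then (2 * (N : ℝ) + 1) else 0) := sum_le_sum hle
    _ = Bx.card * M + bad.card * (2 * (N : ℝ) + 1) := by
      rw [sum_add_distrib, sum_const, nsmul_eq_mul, sum_ite_mem, inter_eq_right.mpr hbad_sub,
        sum_const, nsmul_eq_mul]
    _ ≤ (2 * (N : ℝ) + 1) ^ s * M + D * (2 * (N : ℝ) + 1) ^ s := by
      have h5 : ((bad.card * (2 * N + 1) : ℕ) : ℝ) ≤ ((D * (2 * N + 1) ^ s : ℕ) : ℝ) := by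
        exact_mod_cast hbadc
      push_cast at h5
      rw [hBxc]
      push_cast
      linarith
    _ = _ := by ring

end Pool.Agent.N741.PB
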