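import Mathlib
import Pool.Agent.N741.PB.LineMain
import Pool.Agent.N741.PB.Fib

/-!
Two bases given by polynomials in several variables.
-/

set_option autoImplicit false

namespace Pool.Agent.N741.PB

open Finset MvPolynomial

/-- a nonconstant polynomial depends on some variable -/
theorem exists_degreeOf {n : ℕ} {F : MvPolynomial (Fin n) ℤ} (h : 0 < F.totalDegree) :
    ∃ i, 0 < F.degreeOf i := by
  by_contra hcon
  push Not at hcon
  have h1 : F.totalDegree = 0 := by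
    rw [totalDegree_eq_zero_iff]
    intro m hm x
    have h2 := monomial_le_degreeOf x hm
    have h3 := hcon x
    omega
  omega

theorem box_finite {n N : ℕ} (P : (Fin n → ℤ) → Prop) :
    {t : Fin n → ℤ | (∀ i, |t i| ≤ (N : ℤ)) ∧ P t}.Finite := by
  classical
  apply Set.Finite.subset (Finset.finite_toSet (Fintype.piFinset fun _ : Fin n => Icc (-(N : ℤ)) N))
  rintro t ⟨h, -⟩
  rw [mem_coe, Fintype.mem_piFinset]
  intro i
  rw [mem_Icc]
  exact abs_le.mp (h i)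

/-- permuting the coordinates -/
theorem perm_box {n N : ℕ} (σ : Equiv.Perm (Fin n)) (P : (Fin n → ℤ) → Prop) :
    {t : Fin n → ℤ | (∀ i, |t i| ≤ (N : ℤ)) ∧ P t}.ncard =
      {t : Fin n → ℤ | (∀ i, |t i| ≤ (N : ℤ)) ∧ P (t ∘ σ)}.ncard := by
  have h : (fun t : Fin n → ℤ => t ∘ σ) '' {t : Fin n → ℤ | (∀ i, |t i| ≤ (N : ℤ)) ∧ P (t ∘ σ)} =
      {t : Fin n → ℤ | (∀ i, |t i| ≤ (N : ℤ)) ∧ P t} := by
    ext t
    constructor
    · rintro ⟨u, ⟨h1, h2⟩, rfl⟩
      exact ⟨fun i => h1 (σ i), h2⟩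
    · rintro ⟨h1, h2⟩
      refine ⟨t ∘ σ.symm, ⟨fun i => h1 (σ.symm i), ?_⟩, ?_⟩
      · have : (t ∘ σ.symm) ∘ σ = t := by
          funext i; simp
        rw [this]; exact h2
      · funext i; simp
  rw [← h]
  apply Set.ncard_image_of_injective
  intro t u htu
  funext i
  have := congrFun htu (σ.symm i)
  simpa using this

theorem pair_main (s R : ℕ) (hR : 2 ≤ R) (δ : ℝ) (hδ : 0 < δ) : ∃ c : ℝ, 0 < c ∧ ∃ N₀ : ℕ,
    ∀ N : ℕ, N₀ ≤ N → ∀ F G : MvPolynomial (Fin (s + 1)) ℤ,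
      (0 < F.totalDegree ∨ 0 < G.totalDegree) →
      (F.totalDegree : ℝ) ≤ (N : ℝ) ^ c → (G.totalDegree : ℝ) ≤ (N : ℝ) ^ c →
      (∀ t : Fin (s + 1) → ℤ, (∀ i, |t i| ≤ (N : ℤ)) →
        |((eval t F : ℤ) : ℝ)| ≤ Real.exp ((N : ℝ) ^ c) ∧
        |((eval t G : ℤ) : ℝ)| ≤ Real.exp ((N : ℝ) ^ c)) →
      ({t : Fin (s + 1) → ℤ | (∀ i, |t i| ≤ (N : ℤ)) ∧
        Pair R (Real.exp ((N : ℝ) ^ c)) (eval t F) (eval t G)}.ncard : ℝ) ≤
          (N : ℝ) ^ ((s : ℝ) + 1 / (R : ℝ) + δ) := by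
  classical
  obtain ⟨c, hc, hcδ, hc1, N₀, hN₀⟩ := line_main R hR (δ / 2) (by positivity)
  obtain ⟨L, hL⟩ := ev_rpow (show 0 < δ / 2 by positivity) (2 * 3 ^ s)
  refine ⟨c, hc, N₀ + L + 1, fun N hN F G hFG hDF hDG hval => ?_⟩
  have hN1 : (1 : ℝ) ≤ N := by
    have : 1 ≤ N := by omega
    exact_mod_cast this
  have hNpos : (0 : ℝ) < N := by linarith
  have hR2 : (2 : ℝ) ≤ R := by exact_mod_cast hR
  have hRinv0 : 0 < 1 / (R : ℝ) := by positivity
  have h1 := hL N (by omega)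
  -- the case of a polynomial which depends on the first variable
  have key : ∀ F G : MvPolynomial (Fin (s + 1)) ℤ, (0 < F.degreeOf 0 ∨ 0 < G.degreeOf 0) →
      (F.totalDegree : ℝ) ≤ (N : ℝ) ^ c → (G.totalDegree : ℝ) ≤ (N : ℝ) ^ c →
      (∀ t : Fin (s + 1) → ℤ, (∀ i, |t i| ≤ (N : ℤ)) →
        |((eval t F : ℤ) : ℝ)| ≤ Real.exp ((N : ℝ) ^ c) ∧
        |((eval t G : ℤ) : ℝ)| ≤ Real.exp ((N : ℝ) ^ c)) →
      ({t : Fin (s + 1) → ℤ | (∀ i, |t i| ≤ (N : ℤ)) ∧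
        Pair R (Real.exp ((N : ℝ) ^ c)) (eval t F) (eval t G)}.ncard : ℝ) ≤
          (N : ℝ) ^ ((s : ℝ) + 1 / (R : ℝ) + δ) := by
    intro F G hFG hDF hDG hval
    set T := (box_finite (N := N) (fun t : Fin (s + 1) → ℤ =>
      Pair R (Real.exp ((N : ℝ) ^ c)) (eval t F) (eval t G))).toFinset with hT
    have hTm : ∀ t, t ∈ T ↔ (∀ i, |t i| ≤ (N : ℤ)) ∧
        Pair R (Real.exp ((N : ℝ) ^ c)) (eval t F) (eval t G) := by
      intro t
      rw [hT, Set.Finite.mem_toFinset]; rfl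
    rw [Set.ncard_eq_toFinset_card _ (box_finite (N := N) (fun t : Fin (s + 1) → ℤ =>
      Pair R (Real.exp ((N : ℝ) ^ c)) (eval t F) (eval t G))), ← hT]
    obtain ⟨H, hH0, hHD, hHl⟩ : ∃ H : MvPolynomial (Fin (s + 1)) ℤ, 0 < H.degreeOf 0 ∧
        (H.totalDegree : ℝ) ≤ (N : ℝ) ^ c ∧ ∀ t', 0 < (lin H t').natDegree →
          (0 < (lin F t').natDegree ∨ 0 < (lin G t').natDegree) := by
      rcases hFG with h | h
      · exact ⟨F, h, hDF, fun t' ht' => Or.inl ht'⟩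
      · exact ⟨G, h, hDG, fun t' ht' => Or.inr ht'⟩
    have h2 := fiber_count H hH0 le_rfl ((N : ℝ) ^ (1 / (R : ℝ) + δ / 2)) (by positivity) T
      (fun t ht => ((hTm t).mp ht).1) (fun t' ht' hpos T' hT' => by
        refine hN₀ N (by omega) (lin F t') (lin G t') (hHl t' hpos) ?_ ?_ ?_ T' ?_
        · exact le_trans (by exact_mod_cast lin_natDegree F t') hDF
        · exact le_trans (by exact_mod_cast lin_natDegree G t') hDG
        · intro n hn
          rw [lin_eval', lin_eval']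
          apply hval
          intro i
          refine Fin.cases ?_ (fun j => ?_) i
          · simpa using hn
          · simpa using ht' j
        · intro n hn
          have h3 := (hTm _).mp (hT' n hn)
          rw [lin_eval', lin_eval']
          refine ⟨?_, h3.2⟩
          have := h3.1 0
          simpa using this)
    refine h2.trans ?_
    have e1 : (H.totalDegree : ℝ) ≤ (N : ℝ) ^ (1 / (R : ℝ) + δ / 2) :=
      hHD.trans (Real.rpow_le_rpow_of_exponent_le hN1 (by linarith))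
    have e2 : (2 * (N : ℝ) + 1) ^ s ≤ (3 * (N : ℝ)) ^ s :=
      pow_le_pow_left₀ (by positivity) (by linarith) s
    calc (2 * (N : ℝ) + 1) ^ s * ((N : ℝ) ^ (1 / (R : ℝ) + δ / 2) + H.totalDegree)
        ≤ (3 * (N : ℝ)) ^ s * ((N : ℝ) ^ (1 / (R : ℝ) + δ / 2) +
          (N : ℝ) ^ (1 / (R : ℝ) + δ / 2)) := by gcongr
      _ = (2 * 3 ^ s) * ((N : ℝ) ^ (s : ℝ) * (N : ℝ) ^ (1 / (R : ℝ) + δ / 2)) := by
        rw [mul_pow, Real.rpow_natCast]; ring
      _ ≤ (N : ℝ) ^ (δ / 2) * ((N : ℝ) ^ (s : ℝ) * (N : ℝ) ^ (1 / (R : ℝ) + δ / 2)) := by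
        gcongr
      _ = (N : ℝ) ^ ((s : ℝ) + 1 / (R : ℝ) + δ) := by
        rw [← Real.rpow_add hNpos, ← Real.rpow_add hNpos]
        congr 1; ring
  -- reduction to this case
  obtain ⟨i, hi⟩ : ∃ i, 0 < F.degreeOf i ∨ 0 < G.degreeOf i := by
    rcases hFG with h | h
    · obtain ⟨i, hi⟩ := exists_degreeOf h
      exact ⟨i, Or.inl hi⟩
    · obtain ⟨i, hi⟩ := exists_degreeOf h
      exact ⟨i, Or.inr hi⟩
  set σ := Equiv.swap i 0 with hσ
  have hσi : σ i = 0 := Equiv.swap_apply_left i 0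
  rw [perm_box σ]
  have h2 : ∀ (F : MvPolynomial (Fin (s + 1)) ℤ) (t : Fin (s + 1) → ℤ),
      eval (t ∘ σ) F = eval t (rename σ F) := fun F t => (eval_rename _ _ _).symm
  have h3 := key (rename σ F) (rename σ G) (by
    rw [← hσi, degreeOf_rename_of_injective σ.injective, degreeOf_rename_of_injective σ.injective]
    exact hi) (le_trans (by exact_mod_cast totalDegree_rename_le _ _) hDF)
    (le_trans (by exact_mod_cast totalDegree_rename_le _ _) hDG) (by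
      intro t ht
      rw [← h2, ← h2]
      exact hval _ (fun i => ht (σ i)))
  simp only [h2]
  exact h3

end Pool.Agent.N741.PB
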