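import Mathlib
import Pool.Agent.N741.PB.Main

/-!
Three bases given by polynomials, and solutions near polynomial curves.
-/

set_option autoImplicit false

namespace Pool.Agent.N741.PB

open Finset Polynomial

/-- `a`, `b`, `c` are the bases of a solution -/
def Tri (a b c : ℤ) : Prop := ∃ (l m k : ℕ) (s t : ℤ), ISol a b c l m k s t

/-- the polynomial of an equation -/
noncomputable def Pf (f g h : ℤ[X]) (l m k : ℕ) (s t : ℤ) : ℤ[X] :=
  f ^ l + C s * g ^ m - C t * h ^ k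

theorem pf_ne_zero {f g h : ℤ[X]} (hf : f ≠ 0) (hg : g ≠ 0) (hh : h ≠ 0)
    (hpos : 0 < f.natDegree ∨ 0 < g.natDegree ∨ 0 < h.natDegree)
    (hcop : IsCoprime (f.map (Int.castRingHom ℚ)) (g.map (Int.castRingHom ℚ))) {l m k : ℕ}
    (hl : 0 < l) (hm : 0 < m) (hk : 0 < k) (hineq : m * k + k * l + l * m ≤ l * m * k) {s t : ℤ}
    (hs : s = 1 ∨ s = -1) (ht : t = 1 ∨ t = -1) : Pf f g h l m k s t ≠ 0 := by
  intro h0
  have hinj : Function.Injective (Int.castRingHom ℚ) := (Int.castRingHom ℚ).injective_int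
  have h1 := congrArg (fun P : ℤ[X] => P.map (Int.castRingHom ℚ)) h0
  simp only [Pf, Polynomial.map_sub, Polynomial.map_add, Polynomial.map_mul, Polynomial.map_pow,
    map_C, Polynomial.map_zero] at h1
  have hne : ∀ {P : ℤ[X]}, P ≠ 0 → P.map (Int.castRingHom ℚ) ≠ 0 := fun {P} hP =>
    (Polynomial.map_ne_zero_iff hinj).mpr hP
  have hs0 : (Int.castRingHom ℚ) s ≠ 0 := by rcases hs with rfl | rfl <;> simp
  have ht0 : -(Int.castRingHom ℚ) t ≠ 0 := by rcases ht with rfl | rfl <;> simp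
  have h2 := Polynomial.flt_catalan (k := ℚ) hl.ne' hm.ne' hk.ne' hineq
    (by exact_mod_cast hl.ne') (by exact_mod_cast hm.ne') (by exact_mod_cast hk.ne')
    (hne hf) (hne hg) (hne hh) hcop (u := 1) (v := (Int.castRingHom ℚ) s)
    (w := -(Int.castRingHom ℚ) t) one_ne_zero hs0 ht0 (by
      rw [C_neg, C_1, one_mul]
      linear_combination h1)
  rw [natDegree_map_eq_of_injective hinj, natDegree_map_eq_of_injective hinj,
    natDegree_map_eq_of_injective hinj] at h2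
  omega

theorem pf_natDegree {f g h : ℤ[X]} {l m k B D : ℕ} {s t : ℤ} (hl : l ≤ B) (hm : m ≤ B) (hk : k ≤ B)
    (hD : f.natDegree ≤ D) (hD' : g.natDegree ≤ D) (hD'' : h.natDegree ≤ D) :
    (Pf f g h l m k s t).natDegree ≤ B * D := by
  have h1 : ∀ {P : ℤ[X]} {i : ℕ}, i ≤ B → P.natDegree ≤ D → (P ^ i).natDegree ≤ B * D := by
    intro P i hi hP
    exact natDegree_pow_le.trans (Nat.mul_le_mul hi hP)
  unfold Pf
  refine (natDegree_sub_le _ _).trans (max_le ((natDegree_add_le _ _).trans (max_le (h1 hl hD) ?_)) ?_)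
  · exact (natDegree_C_mul_le _ _).trans (h1 hm hD')
  · exact (natDegree_C_mul_le _ _).trans (h1 hk hD'')

theorem tri_line {C κ : ℕ} (hC : ∀ S : ℕ, 2 ≤ S → ∀ (a b c : ℤ) (l m k : ℕ) (s t : ℤ),
    ISol a b c l m k s t → a.natAbs ≤ 2 ^ S → b.natAbs ≤ 2 ^ S → c.natAbs ≤ 2 ^ S →
    (2 ≤ a.natAbs → l ≤ C * S ^ κ) ∧ (2 ≤ b.natAbs → m ≤ C * S ^ κ) ∧
      (2 ≤ c.natAbs → k ≤ C * S ^ κ)) {f g h : ℤ[X]}
    (hpos : 0 < f.natDegree ∨ 0 < g.natDegree ∨ 0 < h.natDegree)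
    {S D B : ℕ} (hS : 2 ≤ S) (hDf : f.natDegree ≤ D) (hDg : g.natDegree ≤ D)
    (hDh : h.natDegree ≤ D) (hB : B = C * S ^ κ + 7) (T : Finset ℤ)
    (hT : ∀ n ∈ T, Tri (f.eval n) (g.eval n) (h.eval n) ∧ (f.eval n).natAbs ≤ 2 ^ S ∧
      (g.eval n).natAbs ≤ 2 ^ S ∧ (h.eval n).natAbs ≤ 2 ^ S) :
    T.card ≤ 2 * D + (B + 1) ^ 3 * 4 * (B * D) := by
  classical
  rcases T.eq_empty_or_nonempty with hTe | ⟨n₀, hn₀⟩
  · rw [hTe, card_empty]; exact Nat.zero_le _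
  have hf0 : f ≠ 0 := by
    rintro rfl
    obtain ⟨⟨l, m, k, s, t, h⟩, -⟩ := hT n₀ hn₀
    exact h.a0 (by simp)
  have hg0 : g ≠ 0 := by
    rintro rfl
    obtain ⟨⟨l, m, k, s, t, h⟩, -⟩ := hT n₀ hn₀
    exact h.b0 (by simp)
  have hh0 : h ≠ 0 := by
    rintro rfl
    obtain ⟨⟨l, m, k, s, t, h⟩, -⟩ := hT n₀ hn₀
    exact h.c0 (by simp)
  by_cases hcop : IsCoprime (f.map (Int.castRingHom ℚ)) (g.map (Int.castRingHom ℚ))
  swap
  · have h1 := unit_values hf0 hcop T (fun n hn => by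
      obtain ⟨⟨l, m, k, s, t, h⟩, -⟩ := hT n hn
      exact h.ab)
    have : T.card ≤ 2 * D := h1.trans (Nat.mul_le_mul_left _ hDf)
    exact this.trans (Nat.le_add_right _ _)
  set A : (ℕ × ℕ × ℕ) × (ℤ × ℤ) → Finset ℤ := fun e => T.filter (fun n : ℤ =>
    (Pf f g h e.1.1 e.1.2.1 e.1.2.2 e.2.1 e.2.2).eval n = 0) with hA
  have hsub : T ⊆ (Idx B 0).biUnion A := by
    intro n hn
    obtain ⟨⟨l, m, k, s, t, h1⟩, hv1, hv2, hv3⟩ := hT n hn
    obtain ⟨b1, b2, b3⟩ := hC S hS _ _ _ l m k s t h1 hv1 hv2 hv3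
    obtain ⟨l', hl', -, h2⟩ := h1.red1 b1
    obtain ⟨m', hm', -, h3⟩ := h2.red2 b2
    obtain ⟨k', hk', -, h4⟩ := h3.red3 b3
    rw [mem_biUnion]
    refine ⟨((l', m', k'), (s, t)), ?_, ?_⟩
    · simp only [Idx, mem_product, mem_filter, mem_range, mem_insert, mem_singleton]
      exact ⟨⟨⟨by omega, by omega, by omega⟩, h4.l0, h4.m0, h4.k0, h4.le, fun p hp => by omega⟩,
        h4.s1, h4.t1⟩
    · simp only [hA, mem_filter, Pf, eval_sub, eval_add, eval_mul, eval_C, eval_pow]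
      refine ⟨hn, ?_⟩
      rw [h4.eq, sub_self]
  have hAc : ∀ e ∈ Idx B 0, (A e).card ≤ B * D := by
    rintro ⟨⟨l, m, k⟩, s, t⟩ he
    simp only [Idx, mem_product, mem_filter, mem_range, mem_insert, mem_singleton] at he
    obtain ⟨⟨⟨h1, h2, h3⟩, h4, h5, h6, h7, -⟩, hs, ht⟩ := he
    refine (int_roots_card _ (pf_ne_zero hf0 hg0 hh0 hpos hcop h4 h5 h6 h7 hs ht) _ ?_).trans
      (pf_natDegree (by omega) (by omega) (by omega) hDf hDg hDh)
    intro n hn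
    simp only [hA, mem_filter] at hn
    exact hn.2
  have h1 := card_biUnion_le_card_mul _ _ _ hAc
  have h2 := (card_le_card hsub).trans (h1.trans (Nat.mul_le_mul_right _ (idx_card B 0)))
  omega

open MvPolynomial in
/-- three polynomials in several variables -/
theorem tri_box {C κ : ℕ} (hC : ∀ S : ℕ, 2 ≤ S → ∀ (a b c : ℤ) (l m k : ℕ) (s t : ℤ),
    ISol a b c l m k s t → a.natAbs ≤ 2 ^ S → b.natAbs ≤ 2 ^ S → c.natAbs ≤ 2 ^ S →
    (2 ≤ a.natAbs → l ≤ C * S ^ κ) ∧ (2 ≤ b.natAbs → m ≤ C * S ^ κ) ∧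
      (2 ≤ c.natAbs → k ≤ C * S ^ κ)) {d : ℕ} (F G H : MvPolynomial (Fin (d + 1)) ℤ)
    (hpos : 0 < F.totalDegree ∨ 0 < G.totalDegree ∨ 0 < H.totalDegree)
    {S D B N : ℕ} (hS : 2 ≤ S) (hDF : F.totalDegree ≤ D) (hDG : G.totalDegree ≤ D)
    (hDH : H.totalDegree ≤ D) (hB : B = C * S ^ κ + 7)
    (hval : ∀ t : Fin (d + 1) → ℤ, (∀ i, |t i| ≤ (N : ℤ)) → (eval t F).natAbs ≤ 2 ^ S ∧
      (eval t G).natAbs ≤ 2 ^ S ∧ (eval t H).natAbs ≤ 2 ^ S) :
    ({t : Fin (d + 1) → ℤ | (∀ i, |t i| ≤ (N : ℤ)) ∧ Tri (eval t F) (eval t G) (eval t H)}.ncard : ℝ) ≤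
      (2 * N + 1) ^ d * ((2 * D + (B + 1) ^ 3 * 4 * (B * D) : ℕ) + D) := by
  classical
  have key : ∀ F G H : MvPolynomial (Fin (d + 1)) ℤ,
      (0 < F.degreeOf 0 ∨ 0 < G.degreeOf 0 ∨ 0 < H.degreeOf 0) →
      F.totalDegree ≤ D → G.totalDegree ≤ D → H.totalDegree ≤ D →
      (∀ t : Fin (d + 1) → ℤ, (∀ i, |t i| ≤ (N : ℤ)) → (eval t F).natAbs ≤ 2 ^ S ∧
        (eval t G).natAbs ≤ 2 ^ S ∧ (eval t H).natAbs ≤ 2 ^ S) →
      ({t : Fin (d + 1) → ℤ | (∀ i, |t i| ≤ (N : ℤ)) ∧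
        Tri (eval t F) (eval t G) (eval t H)}.ncard : ℝ) ≤
      (2 * N + 1) ^ d * ((2 * D + (B + 1) ^ 3 * 4 * (B * D) : ℕ) + D) := by
    intro F G H hpos hDF hDG hDH hval
    set T := (box_finite (N := N) (fun t : Fin (d + 1) → ℤ =>
      Tri (eval t F) (eval t G) (eval t H))).toFinset with hT
    have hTm : ∀ t, t ∈ T ↔ (∀ i, |t i| ≤ (N : ℤ)) ∧ Tri (eval t F) (eval t G) (eval t H) := by
      intro t
      rw [hT, Set.Finite.mem_toFinset]; rfl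
    rw [Set.ncard_eq_toFinset_card _ (box_finite (N := N) (fun t : Fin (d + 1) → ℤ =>
      Tri (eval t F) (eval t G) (eval t H))), ← hT]
    obtain ⟨Q, hQ0, hQD, hQl⟩ : ∃ Q : MvPolynomial (Fin (d + 1)) ℤ, 0 < Q.degreeOf 0 ∧
        Q.totalDegree ≤ D ∧ ∀ t', 0 < (lin Q t').natDegree →
          (0 < (lin F t').natDegree ∨ 0 < (lin G t').natDegree ∨ 0 < (lin H t').natDegree) := by
      rcases hpos with h | h | h
      · exact ⟨F, h, hDF, fun t' ht' => Or.inl ht'⟩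
      · exact ⟨G, h, hDG, fun t' ht' => Or.inr (Or.inl ht')⟩
      · exact ⟨H, h, hDH, fun t' ht' => Or.inr (Or.inr ht')⟩
    refine fiber_count Q hQ0 hQD ((2 * D + (B + 1) ^ 3 * 4 * (B * D) : ℕ) : ℝ)
      (Nat.cast_nonneg _) T (fun t ht => ((hTm t).mp ht).1) (fun t' _ hp T' hT' => ?_)
    have h1 := tri_line hC (hQl t' hp) hS ((lin_natDegree F t').trans hDF)
      ((lin_natDegree G t').trans hDG) ((lin_natDegree H t').trans hDH) hB T' (by
        intro n hn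
        have h3 := (hTm _).mp (hT' n hn)
        rw [lin_eval', lin_eval', lin_eval']
        exact ⟨h3.2, hval _ h3.1⟩)
    exact_mod_cast h1
  obtain ⟨i, hi⟩ : ∃ i, 0 < F.degreeOf i ∨ 0 < G.degreeOf i ∨ 0 < H.degreeOf i := by
    rcases hpos with h | h | h
    · obtain ⟨i, hi⟩ := exists_degreeOf h
      exact ⟨i, Or.inl hi⟩
    · obtain ⟨i, hi⟩ := exists_degreeOf h
      exact ⟨i, Or.inr (Or.inl hi)⟩
    · obtain ⟨i, hi⟩ := exists_degreeOf h
      exact ⟨i, Or.inr (Or.inr hi)⟩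
  set σ := Equiv.swap i 0 with hσ
  have hσi : σ i = 0 := Equiv.swap_apply_left i 0
  rw [perm_box σ]
  have h2 : ∀ (F : MvPolynomial (Fin (d + 1)) ℤ) (t : Fin (d + 1) → ℤ),
      eval (t ∘ σ) F = eval t (rename σ F) := fun F t => (eval_rename _ _ _).symm
  have h3 := key (rename σ F) (rename σ G) (rename σ H) (by
    rw [← hσi, degreeOf_rename_of_injective σ.injective, degreeOf_rename_of_injective σ.injective,
      degreeOf_rename_of_injective σ.injective]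
    exact hi) ((totalDegree_rename_le _ _).trans hDF) ((totalDegree_rename_le _ _).trans hDG)
    ((totalDegree_rename_le _ _).trans hDH) (by
      intro t ht
      rw [← h2, ← h2, ← h2]
      exact hval _ (fun i => ht (σ i)))
  simp only [h2]
  exact h3

end Pool.Agent.N741.PB
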